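import Pool.Agent.Helper59.DF.Close

/-!
# The structure: points, values of tuples, similarity of tuples
-/

set_option autoImplicit false
set_option linter.unusedSectionVars false
set_option linter.unusedVariables false

namespace Pool.Agent.Helper59.DF

/-- The points of the structure: a side, a level `lev` and a binary string of length `lev`
(a function on `ℕ` vanishing from `lev` on). -/
@[ext] structure Pt where
  side : Bool
  lev : ℕ
  str : Str
  supp : ∀ t, lev ≤ t → str t = 0

/-- the string of a point as a node -/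
def nd (x : Pt) : Node := ⟨x.lev, x.str⟩

section defs

variable {α : Type} [Fintype α]

/-- the sum of the strings of the tuple `v` with coefficients `e` -/
def sm (v : α → Pt) (e : α → ZMod 2) : Str := fun t => ∑ i, (v i).str t * e i

/-- the combination `e` has an even number of points in every level, and on every side -/
def Bal (v : α → Pt) (e : α → ZMod 2) : Prop :=
  (∀ d : ℕ, ∑ i, (if (v i).lev = d then (1 : ZMod 2) else 0) * e i = 0) ∧
    ∑ i, (if (v i).side = true then (1 : ZMod 2) else 0) * e i = 0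

/-- the smallest level of the points of the combination `e` -/
noncomputable def cap (v : α → Pt) (e : α → ZMod 2) : ℕ := ⨅ i : {i // e i ≠ 0}, (v i).lev

/-- the node of a combination -/
noncomputable def node (v : α → Pt) (e : α → ZMod 2) : Node := ⟨cap v e, sm v e⟩

open Classical in
/-- the value of a balanced combination: the length up to which the sum vanishes -/
noncomputable def W (v : α → Pt) (e : α → ZMod 2) : ℕ :=
  if Bal v e then mt (cap v e) (sm v e) 0 else 0

/-- all values of a tuple -/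
noncomputable def val (v : α → Pt) : Option (α ⊕ (α → ZMod 2)) → ℕ
  | none => 0
  | some (.inl i) => (v i).lev
  | some (.inr e) => W v e

/-- `K`-similar tuples -/
def Sim (K : ℕ) (v w : α → Pt) : Prop :=
  (∀ i, (v i).side = (w i).side) ∧
    ∀ p q, min (val v p - val v q) K = min (val w p - val w q) K

/-- pairs of corresponding values -/
def Q (v w : α → Pt) (a a' : ℕ) : Prop := ∃ p, a = val v p ∧ a' = val w p

end defs

section lemmas

variable {α β : Type} [Fintype α] [Fintype β]

theorem cap_le {v : α → Pt} {e : α → ZMod 2} {i : α} (h : e i ≠ 0) : cap v e ≤ (v i).lev :=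
  ciInf_le (OrderBot.bddBelow _) (⟨i, h⟩ : {i // e i ≠ 0})

theorem exists_cap (v : α → Pt) {e : α → ZMod 2} (h : e ≠ 0) :
    ∃ i, e i ≠ 0 ∧ cap v e = (v i).lev := by
  obtain ⟨i, hi⟩ : ∃ i, e i ≠ 0 := by
    by_contra h1
    push Not at h1
    exact h (funext h1)
  have : Nonempty {i // e i ≠ 0} := ⟨⟨i, hi⟩⟩
  have h2 : cap v e ∈ Set.range (fun i : {i // e i ≠ 0} => (v i).lev) :=
    Nat.sInf_mem (Set.range_nonempty _)
  obtain ⟨⟨k, hk⟩, h3⟩ := h2
  exact ⟨k, hk, h3.symm⟩

theorem le_cap {v : α → Pt} {e : α → ZMod 2} (h : e ≠ 0) {j : ℕ} :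
    j ≤ cap v e ↔ ∀ i, e i ≠ 0 → j ≤ (v i).lev := by
  constructor
  · intro h1 i hi
    exact h1.trans (cap_le hi)
  · intro h1
    obtain ⟨i, hi, h2⟩ := exists_cap v h
    rw [h2]
    exact h1 i hi

theorem cap_zero (v : α → Pt) : cap v 0 = 0 := by
  have : IsEmpty {i : α // (0 : α → ZMod 2) i ≠ 0} := ⟨fun i => i.2 rfl⟩
  exact Nat.iInf_of_empty _

theorem Sim.close {K : ℕ} {v w : α → Pt} (h : Sim K v w) : Close K (Q v w) := by
  rintro a a' b b' ⟨p, rfl, rfl⟩ ⟨q, rfl, rfl⟩
  exact h.2 p q

theorem sim_of_close {K : ℕ} {v w : α → Pt} (hs : ∀ i, (v i).side = (w i).side)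
    (h : Close K (Q v w)) : Sim K v w :=
  ⟨hs, fun p q => h _ _ _ _ ⟨p, rfl, rfl⟩ ⟨q, rfl, rfl⟩⟩

theorem Sim.refl (K : ℕ) (v : α → Pt) : Sim K v v := ⟨fun _ => rfl, fun _ _ => rfl⟩

theorem Sim.symm {K : ℕ} {v w : α → Pt} (h : Sim K v w) : Sim K w v :=
  ⟨fun i => (h.1 i).symm, fun p q => (h.2 p q).symm⟩

theorem Sim.trans {K : ℕ} {u v w : α → Pt} (h : Sim K u v) (h' : Sim K v w) : Sim K u w :=
  ⟨fun i => (h.1 i).trans (h'.1 i), fun p q => (h.2 p q).trans (h'.2 p q)⟩

theorem Sim.mono {K K' : ℕ} {v w : α → Pt} (h : Sim K' v w) (hK : K ≤ K') : Sim K v w :=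
  sim_of_close h.1 (h.close.mono hK)

theorem Q_zero (v w : α → Pt) : Q v w 0 0 := ⟨none, rfl, rfl⟩

theorem Q_lev (v w : α → Pt) (i : α) : Q v w (v i).lev (w i).lev := ⟨some (.inl i), rfl, rfl⟩

theorem Q_W (v w : α → Pt) (e : α → ZMod 2) : Q v w (W v e) (W w e) := ⟨some (.inr e), rfl, rfl⟩

theorem Q_symm {v w : α → Pt} {a a' : ℕ} (h : Q v w a a') : Q w v a' a := by
  obtain ⟨p, h1, h2⟩ := h
  exact ⟨p, h2, h1⟩

theorem Q_diag {v : α → Pt} {a a' : ℕ} (h : Q v v a a') : a = a' := by
  obtain ⟨p, h1, h2⟩ := h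
  rw [h1, h2]

theorem Q_cap {K : ℕ} (hK : 1 ≤ K) {v w : α → Pt} (h : Close K (Q v w)) (e : α → ZMod 2) :
    Q v w (cap v e) (cap w e) := by
  by_cases he : e = 0
  · subst he
    rw [cap_zero, cap_zero]
    exact Q_zero v w
  · obtain ⟨i, hi, h1⟩ := exists_cap v he
    have h2 : cap w e = (w i).lev := by
      apply le_antisymm (cap_le hi)
      rw [le_cap he]
      intro k hk
      rw [← h.le_iff hK (Q_lev v w i) (Q_lev v w k), ← h1]
      exact cap_le hk
    rw [h1, h2]
    exact Q_lev v w i

theorem Bal.congr {v w : α → Pt} (hl : ∀ i j, (v i).lev = (v j).lev ↔ (w i).lev = (w j).lev)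
    (hs : ∀ i, (v i).side = (w i).side) {e : α → ZMod 2} (h : Bal v e) : Bal w e := by
  refine ⟨fun d => ?_, ?_⟩
  · by_cases h1 : ∃ i, (w i).lev = d
    · obtain ⟨i, rfl⟩ := h1
      refine (Finset.sum_congr rfl fun k _ => ?_).trans (h.1 (v i).lev)
      congr 1
      by_cases h2 : (v k).lev = (v i).lev
      · rw [if_pos h2, if_pos ((hl k i).1 h2)]
      · rw [if_neg h2, if_neg fun h3 => h2 ((hl k i).2 h3)]
    · push Not at h1
      refine Finset.sum_eq_zero fun k _ => ?_
      rw [if_neg (h1 k), zero_mul]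
  · refine (Finset.sum_congr rfl fun k _ => ?_).trans h.2
    rw [hs k]

theorem lev_eq_iff {K : ℕ} (hK : 1 ≤ K) {v w : α → Pt} (h : Close K (Q v w)) (i j : α) :
    (v i).lev = (v j).lev ↔ (w i).lev = (w j).lev :=
  h.eq_iff hK (Q_lev v w i) (Q_lev v w j)

theorem Sim.bal {K : ℕ} (hK : 1 ≤ K) {v w : α → Pt} (h : Sim K v w) {e : α → ZMod 2}
    (hb : Bal v e) : Bal w e :=
  hb.congr (lev_eq_iff hK h.close) h.1

/-! #### change of index -/

open Classical in
/-- push forward of coefficients -/
noncomputable def push (f : β → α) (e : β → ZMod 2) : α → ZMod 2 :=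
  fun i => ∑ b, if f b = i then e b else 0

theorem sum_push (f : β → α) (e : β → ZMod 2) (g : α → ZMod 2) :
    ∑ i, g i * push f e i = ∑ b, g (f b) * e b := by
  unfold push
  simp_rw [Finset.mul_sum]
  rw [Finset.sum_comm]
  refine Finset.sum_congr rfl fun b _ => ?_
  rw [Finset.sum_eq_single (f b)]
  · rw [if_pos rfl]
  · intro i _ hi
    rw [if_neg (Ne.symm hi), mul_zero]
  · intro h
    exact absurd (Finset.mem_univ _) h

theorem bal_push (f : β → α) (v : α → Pt) (e : β → ZMod 2) :
    Bal v (push f e) ↔ Bal (fun b => v (f b)) e := by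
  unfold Bal
  refine and_congr (forall_congr' fun d => ?_) ?_
  · rw [sum_push f e (fun i => if (v i).lev = d then (1 : ZMod 2) else 0)]
  · rw [sum_push f e (fun i => if (v i).side = true then (1 : ZMod 2) else 0)]

theorem sm_push (f : β → α) (v : α → Pt) (e : β → ZMod 2) :
    sm v (push f e) = sm (fun b => v (f b)) e :=
  funext fun t => sum_push f e (fun i => (v i).str t)

theorem push_ne {f : β → α} {e : β → ZMod 2} {i : α} (h : push f e i ≠ 0) :
    ∃ b, f b = i ∧ e b ≠ 0 := by
  by_contra h1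
  push Not at h1
  apply h
  refine Finset.sum_eq_zero fun b _ => ?_
  by_cases h2 : f b = i
  · rw [if_pos h2]
    exact h1 b h2
  · rw [if_neg h2]

theorem cap_push_le (f : β → α) (v : α → Pt) {e : β → ZMod 2} (h : push f e ≠ 0) :
    cap (fun b => v (f b)) e ≤ cap v (push f e) := by
  rw [le_cap h]
  intro i hi
  obtain ⟨b, rfl, hb⟩ := push_ne hi
  exact cap_le (v := fun b => v (f b)) hb

theorem W_of_bal {v : α → Pt} {e : α → ZMod 2} (h : Bal v e) : W v e = mt (cap v e) (sm v e) 0 :=
  if_pos h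

theorem W_of_not_bal {v : α → Pt} {e : α → ZMod 2} (h : ¬ Bal v e) : W v e = 0 := if_neg h

theorem W_comp (f : β → α) (v : α → Pt) {e : β → ZMod 2} (hb : Bal (fun b => v (f b)) e)
    (h : push f e ≠ 0) :
    W (fun b => v (f b)) e = min (cap (fun b => v (f b)) e) (W v (push f e)) := by
  rw [W_of_bal hb, W_of_bal ((bal_push f v e).2 hb)]
  have h1 := cap_push_le f v h
  apply le_antisymm
  · have h2 := (le_mt (c := cap (fun b => v (f b)) e) (f := sm (fun b => v (f b)) e) (g := 0)).1
      le_rfl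
    rw [le_min_iff, le_mt]
    refine ⟨h2.1, h2.1.trans h1, ?_⟩
    rw [sm_push]
    exact h2.2
  · rw [le_mt]
    refine ⟨min_le_left _ _, fun t ht => ?_⟩
    have h2 := (le_mt (c := cap v (push f e)) (f := sm v (push f e)) (g := 0)).1
      (le_refl (mt (cap v (push f e)) (sm v (push f e)) 0))
    rw [← sm_push]
    exact h2.2 t (lt_of_lt_of_le ht (min_le_right _ _))

theorem W_comp_zero (f : β → α) (v : α → Pt) {e : β → ZMod 2} (hb : Bal (fun b => v (f b)) e)
    (h : push f e = 0) : W (fun b => v (f b)) e = cap (fun b => v (f b)) e := by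
  rw [W_of_bal hb]
  apply le_antisymm
  · exact (le_mt.1 le_rfl).1
  · rw [le_mt]
    refine ⟨le_rfl, fun t _ => ?_⟩
    rw [← sm_push, h]
    simp [sm]

theorem Q_comp_cap {K : ℕ} (hK : 1 ≤ K) {v w : α → Pt} (h : Close K (Q v w)) (f : β → α)
    (e : β → ZMod 2) : Q v w (cap (fun b => v (f b)) e) (cap (fun b => w (f b)) e) := by
  by_cases he : e = 0
  · subst he
    rw [cap_zero, cap_zero]
    exact Q_zero v w
  · obtain ⟨i, hi, h1⟩ := exists_cap (fun b => v (f b)) he
    have h2 : cap (fun b => w (f b)) e = (w (f i)).lev := by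
      apply le_antisymm (cap_le (v := fun b => w (f b)) hi)
      rw [le_cap he]
      intro k hk
      rw [← h.le_iff hK (Q_lev v w (f i)) (Q_lev v w (f k)), ← h1]
      exact cap_le (v := fun b => v (f b)) hk
    rw [h1, h2]
    exact Q_lev v w (f i)

theorem Q_comp {K : ℕ} (hK : 1 ≤ K) {v w : α → Pt} (h : Sim K v w) (f : β → α) {a a' : ℕ}
    (hq : Q (fun b => v (f b)) (fun b => w (f b)) a a') : Q v w a a' := by
  obtain ⟨p, rfl, rfl⟩ := hq
  rcases p with _ | i | e
  · exact Q_zero v w
  · exact Q_lev v w (f i)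
  · by_cases hb : Bal (fun b => v (f b)) e
    · have hb' : Bal (fun b => w (f b)) e := by
        rw [← bal_push] at hb ⊢
        exact h.bal hK hb
      have hc := Q_comp_cap hK h.close f e
      by_cases he : push f e = 0
      · show Q v w (W (fun b => v (f b)) e) (W (fun b => w (f b)) e)
        rw [W_comp_zero f v hb he, W_comp_zero f w hb' he]
        exact hc
      · show Q v w (W (fun b => v (f b)) e) (W (fun b => w (f b)) e)
        rw [W_comp f v hb he, W_comp f w hb' he]
        exact h.close.min_mem hK hc (Q_W v w (push f e))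
    · have hb' : ¬ Bal (fun b => w (f b)) e := by
        rw [← bal_push] at hb ⊢
        exact fun h1 => hb (h.symm.bal hK h1)
      show Q v w (W (fun b => v (f b)) e) (W (fun b => w (f b)) e)
      rw [W_of_not_bal hb, W_of_not_bal hb']
      exact Q_zero v w

theorem Sim.comp {K : ℕ} (hK : 1 ≤ K) {v w : α → Pt} (h : Sim K v w) (f : β → α) :
    Sim K (fun b => v (f b)) (fun b => w (f b)) :=
  sim_of_close (fun b => h.1 (f b)) (h.close.sub fun _ _ hq => Q_comp hK h f hq)

/-! #### sums and meets -/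

theorem sm_add (v : α → Pt) (e e' : α → ZMod 2) : sm v (e + e') = sm v e + sm v e' := by
  funext t
  simp only [sm, Pi.add_apply, mul_add, Finset.sum_add_distrib]

theorem sm_elim (v : α → Pt) (w : β → Pt) (e : α → ZMod 2) (e' : β → ZMod 2) :
    sm (Sum.elim v w) (Sum.elim e e') = sm v e + sm w e' := by
  funext t
  simp only [sm, Fintype.sum_sum_type, Sum.elim_inl, Sum.elim_inr, Pi.add_apply]

theorem cap_elim (v : α → Pt) (w : β → Pt) {e : α → ZMod 2} {e' : β → ZMod 2} (he : e ≠ 0)
    (he' : e' ≠ 0) : cap (Sum.elim v w) (Sum.elim e e') = min (cap v e) (cap w e') := by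
  have h0 : Sum.elim e e' ≠ 0 := by
    intro h
    apply he
    funext i
    exact congrFun h (.inl i)
  apply le_antisymm
  · rw [le_min_iff, le_cap he, le_cap he']
    constructor
    · intro i hi
      exact cap_le (v := Sum.elim v w) (e := Sum.elim e e') (i := .inl i) hi
    · intro i hi
      exact cap_le (v := Sum.elim v w) (e := Sum.elim e e') (i := .inr i) hi
  · rw [le_cap h0]
    rintro (i | i) hi
    · exact (min_le_left _ _).trans (cap_le hi)
    · exact (min_le_right _ _).trans (cap_le hi)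

theorem zadd_eq_zero {a b : ZMod 2} : a + b = 0 ↔ a = b := by
  revert a b
  decide

theorem zadd_self (a : ZMod 2) : a + a = 0 := zadd_eq_zero.2 rfl

theorem bal_elim (v : α → Pt) (w : β → Pt) (e : α → ZMod 2) (e' : β → ZMod 2) :
    Bal (Sum.elim v w) (Sum.elim e e') ↔
      (∀ d : ℕ, ∑ i, (if (v i).lev = d then (1 : ZMod 2) else 0) * e i =
        ∑ i, (if (w i).lev = d then (1 : ZMod 2) else 0) * e' i) ∧
      ∑ i, (if (v i).side = true then (1 : ZMod 2) else 0) * e i =
        ∑ i, (if (w i).side = true then (1 : ZMod 2) else 0) * e' i := by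
  unfold Bal
  simp only [Fintype.sum_sum_type, Sum.elim_inl, Sum.elim_inr, zadd_eq_zero]
  exact Iff.rfl

theorem W_elim (v : α → Pt) (w : β → Pt) {e : α → ZMod 2} {e' : β → ZMod 2} (he : e ≠ 0)
    (he' : e' ≠ 0) (hb : Bal (Sum.elim v w) (Sum.elim e e')) :
    W (Sum.elim v w) (Sum.elim e e') = meet (node v e) (node w e') := by
  rw [W_of_bal hb, cap_elim v w he he', sm_elim]
  have key : ∀ t, (sm v e + sm w e') t = (0 : Str) t ↔ sm v e t = sm w e' t := fun t =>
    zadd_eq_zero
  apply le_antisymm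
  · have h := (le_mt (c := min (cap v e) (cap w e')) (f := sm v e + sm w e') (g := 0)).1 le_rfl
    rw [le_meet]
    exact ⟨h.1.trans (min_le_left _ _), h.1.trans (min_le_right _ _),
      fun t ht => (key t).1 (h.2 t ht)⟩
  · rw [le_mt]
    have h := (le_meet (x := node v e) (y := node w e')).1 le_rfl
    exact ⟨le_min h.1 h.2.1, fun t ht => (key t).2 (h.2.2 t ht)⟩

theorem W_elim_left (v : α → Pt) (w : β → Pt) (e : α → ZMod 2) :
    W (Sum.elim v w) (Sum.elim e 0) = W v e := by
  have h1 : Bal (Sum.elim v w) (Sum.elim e 0) ↔ Bal v e := by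
    rw [bal_elim]
    simp [Bal]
  have h2 : sm (Sum.elim v w) (Sum.elim e 0) = sm v e := by
    rw [sm_elim]
    funext t
    simp [sm]
  have h3 : cap (Sum.elim v w) (Sum.elim e 0) = cap v e := by
    by_cases he : e = 0
    · subst he
      have : (Sum.elim (0 : α → ZMod 2) (0 : β → ZMod 2)) = 0 := by
        funext i
        rcases i with i | i <;> rfl
      rw [this, cap_zero, cap_zero]
    · have h0 : Sum.elim e (0 : β → ZMod 2) ≠ 0 := by
        intro h
        apply he
        funext i
        exact congrFun h (.inl i)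
      apply le_antisymm
      · rw [le_cap he]
        intro i hi
        exact cap_le (v := Sum.elim v w) (e := Sum.elim e 0) (i := .inl i) hi
      · rw [le_cap h0]
        rintro (i | i) hi
        · exact cap_le hi
        · exact absurd rfl hi
  by_cases hb : Bal v e
  · rw [W_of_bal hb, W_of_bal (h1.2 hb), h2, h3]
  · rw [W_of_not_bal hb, W_of_not_bal fun h => hb (h1.1 h)]

/-- meets of nodes are values -/
theorem meet_eq (v : α → Pt) {e e' : α → ZMod 2} (he : e ≠ 0) (he' : e' ≠ 0) (hne : e ≠ e')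
    (hb : Bal v (e + e')) :
    meet (node v e) (node v e') = min (min (cap v e) (cap v e')) (W v (e + e')) := by
  have h0 : e + e' ≠ 0 := by
    intro h
    apply hne
    funext i
    exact zadd_eq_zero.1 (congrFun h i)
  have hcap : min (cap v e) (cap v e') ≤ cap v (e + e') := by
    rw [le_cap h0]
    intro i hi
    by_cases h1 : e i = 0
    · have h2 : e' i ≠ 0 := by
        intro h3
        apply hi
        rw [Pi.add_apply, h1, h3, add_zero]
      exact (min_le_right _ _).trans (cap_le h2)
    · exact (min_le_left _ _).trans (cap_le h1)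
  rw [W_of_bal hb, sm_add]
  have key : ∀ t, (sm v e + sm v e') t = (0 : Str) t ↔ sm v e t = sm v e' t := fun t =>
    zadd_eq_zero
  apply le_antisymm
  · have h := (le_meet (x := node v e) (y := node v e')).1 le_rfl
    have h1 : meet (node v e) (node v e') ≤ min (cap v e) (cap v e') := le_min h.1 h.2.1
    rw [le_min_iff, le_mt]
    exact ⟨h1, h1.trans hcap, fun t ht => (key t).2 (h.2.2 t ht)⟩
  · rw [le_meet]
    have h := (le_mt (c := cap v (e + e')) (f := sm v e + sm v e') (g := 0)).1
      (le_refl (mt (cap v (e + e')) (sm v e + sm v e') 0))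
    refine ⟨(min_le_left _ _).trans (min_le_left _ _), (min_le_left _ _).trans (min_le_right _ _),
      fun t ht => (key t).1 (h.2 t (lt_of_lt_of_le ht (min_le_right _ _)))⟩

theorem Q_meet {K : ℕ} (hK : 1 ≤ K) {v w : α → Pt} (h : Sim K v w) {e e' : α → ZMod 2}
    (he : e ≠ 0) (he' : e' ≠ 0) (hb : Bal v (e + e')) :
    Q v w (meet (node v e) (node v e')) (meet (node w e) (node w e')) := by
  by_cases hne : e = e'
  · subst hne
    rw [meet_self, meet_self]
    exact Q_cap hK h.close e
  · rw [meet_eq v he he' hne hb, meet_eq w he he' hne (h.bal hK hb)]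
    exact h.close.min_mem hK (h.close.min_mem hK (Q_cap hK h.close e) (Q_cap hK h.close e'))
      (Q_W v w _)

end lemmas

end Pool.Agent.Helper59.DF
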