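import Pool.Agent.Helper59.DF.Ext

/-!
# The similarity classes of points over a tuple, and a three by three pattern
-/

set_option autoImplicit false
set_option linter.unusedSectionVars false
set_option linter.unusedVariables false

namespace Pool.Agent.Helper59.DF

/-- balls (or the empty set) -/
def IsBall (U : Set Pt) : Prop :=
  U = ∅ ∨ ∃ (σ : Bool) (d s : ℕ) (p : Str), U = {x | x.side = σ ∧ x.lev = d ∧ ∀ t < s, x.str t = p t}

theorem IsBall.nested {U V : Set Pt} (hU : IsBall U) (hV : IsBall V) {x : Pt} (h1 : x ∈ U)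
    (h2 : x ∈ V) : U ⊆ V ∨ V ⊆ U := by
  rcases hU with rfl | ⟨σ, d, s, p, rfl⟩
  · exact absurd h1 (Set.notMem_empty x)
  rcases hV with rfl | ⟨σ', d', s', p', rfl⟩
  · exact absurd h2 (Set.notMem_empty x)
  obtain ⟨a1, a2, a3⟩ := h1
  obtain ⟨b1, b2, b3⟩ := h2
  rcases le_total s s' with h | h
  · right
    rintro y ⟨c1, c2, c3⟩
    refine ⟨c1.trans (b1.symm.trans a1), c2.trans (b2.symm.trans a2), fun t ht => ?_⟩
    rw [c3 t (by omega), ← b3 t (by omega), a3 t ht]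
  · left
    rintro y ⟨c1, c2, c3⟩
    refine ⟨c1.trans (a1.symm.trans b1), c2.trans (a2.symm.trans b2), fun t ht => ?_⟩
    rw [c3 t (by omega), ← a3 t (by omega), b3 t ht]

/-- sets given by the side and an interval of levels -/
def IsLev (S : Set Pt) : Prop :=
  ∃ (σ : Bool) (Z : Set ℕ), Z.OrdConnected ∧ S = {x | x.side = σ ∧ x.lev ∈ Z}

/-- annuli -/
def IsAnn (S : Set Pt) : Prop := ∃ U V : Set Pt, IsBall U ∧ IsBall V ∧ S = U \ V

section classes

variable {α : Type} [Fintype α]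

theorem ordConn (K : ℕ) (v : α → Pt) (l : ℕ) :
    ({d | Close K (add (Q v v) l d)} : Set ℕ).OrdConnected := by
  refine ⟨fun a ha b hb m hm => ?_⟩
  rw [Set.mem_Icc] at hm
  refine close_add (Sim.refl K v).close ?_ ?_
  · intro c c' hc
    have e0 := Q_diag hc
    have e1 := ha _ _ _ _ (Or.inr ⟨rfl, rfl⟩) (Or.inl hc)
    have e2 := hb _ _ _ _ (Or.inr ⟨rfl, rfl⟩) (Or.inl hc)
    omega
  · intro c c' hc
    have e0 := Q_diag hc
    have e1 := ha _ _ _ _ (Or.inl hc) (Or.inr ⟨rfl, rfl⟩)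
    have e2 := hb _ _ _ _ (Or.inl hc) (Or.inr ⟨rfl, rfl⟩)
    omega

theorem Q_ex {K : ℕ} (hK : 1 ≤ K) {v w : α → Pt} {x y : Pt} (h : Sim K (ex v x) (ex w y))
    {a a' : ℕ} (hq : Q v w a a') : Q (ex v x) (ex w y) a a' :=
  Q_comp hK h (Sum.inl : α → α ⊕ Unit) hq

theorem class_nice {K : ℕ} (hK : 1 ≤ K) (v : α → Pt) (x₀ : Pt) :
    IsLev {x | Sim K (ex v x₀) (ex v x)} ∨ IsAnn {x | Sim K (ex v x₀) (ex v x)} := by
  classical
  by_cases hO : ∃ e, Od v x₀ e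
  · right
    obtain ⟨e₀, he₀, hmax⟩ := exists_max hO
    obtain ⟨i, hi, hix⟩ := he₀.exists
    set l := meet (node v e₀) (nd x₀) with hl
    set Z : Set ℕ := {d | Close K (add (Q v v) l d)} with hZ
    have hZc : Z.OrdConnected := ordConn K v l
    have hlZ : l ∈ Z := by
      refine close_add (Sim.refl K v).close ?_ ?_
      · intro b b' hb
        rw [Q_diag hb]
      · intro b b' hb
        rw [Q_diag hb]
    have hS : {x | Sim K (ex v x₀) (ex v x)} =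
        {x | x.side = x₀.side ∧ x.lev = x₀.lev ∧ meet (node v e₀) (nd x) ∈ Z} := by
      ext x
      constructor
      · intro h
        have h1 : Sim K (ex v x₀) (ex v x) := h
        have hlev : x.lev = x₀.lev := by
          have h2 := h1.close.eq_iff hK (Q_lev (ex v x₀) (ex v x) (.inl i))
            (Q_lev (ex v x₀) (ex v x) (.inr ()))
          have h3 : (v i).lev = x.lev := h2.1 hix
          rw [← h3, hix]
        refine ⟨(h1.1 (.inr ())).symm, hlev, ?_⟩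
        show Close K (add (Q v v) l _)
        refine h1.close.sub ?_
        rintro a a' (ha | ⟨rfl, rfl⟩)
        · exact Q_ex hK h1 ha
        · have he : Od v x e₀ := h1.bal hK he₀
          rw [hl, ← he₀.W, ← he.W]
          exact Q_W _ _ _
      · rintro ⟨h1, h2, h3⟩
        exact ext_core hK (Sim.refl K v) h1.symm (fun k => by rw [h2]) he₀ hmax h3
    rw [hS]
    set lo := sInf Z with hlo
    have hlo1 : lo ∈ Z := Nat.sInf_mem ⟨l, hlZ⟩
    have hlo2 : ∀ m ∈ Z, lo ≤ m := fun m hm => Nat.sInf_le hm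
    have hlol : lo ≤ l := hlo2 l hlZ
    have hlc : l ≤ cap v e₀ := meet_le_left _ _
    have hlx : l ≤ x₀.lev := meet_le_right _ _
    let U : Set Pt := {x | x.side = x₀.side ∧ x.lev = x₀.lev ∧ ∀ t < lo, x.str t = sm v e₀ t}
    have hU : IsBall U := Or.inr ⟨_, _, _, _, rfl⟩
    have hU' : ∀ x : Pt, x.lev = x₀.lev → (lo ≤ meet (node v e₀) (nd x) ↔
        ∀ t < lo, x.str t = sm v e₀ t) := by
      intro x hx
      rw [le_meet]
      constructor
      · intro h t ht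
        exact (h.2.2 t ht).symm
      · intro h
        exact ⟨hlol.trans hlc, by show lo ≤ x.lev; omega, fun t ht => (h t ht).symm⟩
    by_cases hn : ∃ n, n ∉ Z ∧ lo < n ∧ n ≤ cap v e₀ ∧ n ≤ x₀.lev
    · let n := Nat.find hn
      have hn1 : n ∉ Z ∧ lo < n ∧ n ≤ cap v e₀ ∧ n ≤ x₀.lev := Nat.find_spec hn
      have hn2 : ∀ m, m < n → ¬ (m ∉ Z ∧ lo < m ∧ m ≤ cap v e₀ ∧ m ≤ x₀.lev) := fun m hm =>
        Nat.find_min hn hm
      refine ⟨U, {x | x.side = x₀.side ∧ x.lev = x₀.lev ∧ ∀ t < n, x.str t = sm v e₀ t}, hU,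
        Or.inr ⟨_, _, _, _, rfl⟩, ?_⟩
      ext x
      constructor
      · rintro ⟨h1, h2, h3⟩
        refine ⟨⟨h1, h2, (hU' x h2).1 (hlo2 _ h3)⟩, ?_⟩
        rintro ⟨_, _, h4⟩
        have h5 : n ≤ meet (node v e₀) (nd x) := by
          rw [le_meet]
          exact ⟨hn1.2.2.1, by show n ≤ x.lev; omega, fun t ht => (h4 t ht).symm⟩
        exact hn1.1 (hZc.out hlo1 h3 ⟨hn1.2.1.le, h5⟩)
      · rintro ⟨⟨h1, h2, h3⟩, h4⟩
        refine ⟨h1, h2, ?_⟩
        have h5 := (hU' x h2).2 h3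
        have h6 : meet (node v e₀) (nd x) < n := by
          by_contra h7
          rw [not_lt] at h7
          apply h4
          refine ⟨h1, h2, fun t ht => ?_⟩
          exact (meet_agree (node v e₀) (nd x) (lt_of_lt_of_le ht h7)).symm
        have h7 := hn2 _ h6
        have h8 : meet (node v e₀) (nd x) ≤ cap v e₀ := meet_le_left _ _
        have h9 : meet (node v e₀) (nd x) ≤ x.lev := meet_le_right _ _
        by_contra h10
        apply h7
        refine ⟨h10, ?_, h8, by omega⟩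
        rcases Nat.lt_or_eq_of_le h5 with h11 | h11
        · exact h11
        · rw [← h11] at h10
          exact absurd hlo1 h10
    · refine ⟨U, ∅, hU, Or.inl rfl, ?_⟩
      rw [Set.sdiff_empty]
      ext x
      constructor
      · rintro ⟨h1, h2, h3⟩
        exact ⟨h1, h2, (hU' x h2).1 (hlo2 _ h3)⟩
      · rintro ⟨h1, h2, h3⟩
        refine ⟨h1, h2, ?_⟩
        have h5 := (hU' x h2).2 h3
        have h8 : meet (node v e₀) (nd x) ≤ cap v e₀ := meet_le_left _ _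
        have h9 : meet (node v e₀) (nd x) ≤ x.lev := meet_le_right _ _
        by_contra h10
        apply hn
        refine ⟨_, h10, ?_, h8, by omega⟩
        rcases Nat.lt_or_eq_of_le h5 with h11 | h11
        · exact h11
        · rw [← h11] at h10
          exact absurd hlo1 h10
  · left
    push Not at hO
    refine ⟨x₀.side, {d | Close K (add (Q v v) x₀.lev d)}, ordConn K v _, ?_⟩
    ext x
    constructor
    · intro h
      have h1 : Sim K (ex v x₀) (ex v x) := h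
      refine ⟨(h1.1 (.inr ())).symm, ?_⟩
      refine h1.close.sub ?_
      rintro a a' (ha | ⟨rfl, rfl⟩)
      · exact Q_ex hK h1 ha
      · exact Q_lev (ex v x₀) (ex v x) (.inr ())
    · rintro ⟨h1, h2⟩
      exact noOd_core hK (Sim.refl K v) h1.symm h2 hO

end classes

theorem mixed {S C : Set Pt} (hS : IsLev S) (hC : IsAnn C) {x y : Pt} (h1 : x ∈ S) (h2 : x ∈ C)
    (h3 : y ∈ C) : y ∈ S := by
  obtain ⟨σ, Z, _, rfl⟩ := hS
  obtain ⟨U, V, hU, _, rfl⟩ := hC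
  rcases hU with rfl | ⟨σ', d, s, p, rfl⟩
  · exact absurd h2.1 (Set.notMem_empty x)
  · obtain ⟨⟨a1, a2, _⟩, _⟩ := h2
    obtain ⟨⟨b1, b2, _⟩, _⟩ := h3
    obtain ⟨c1, c2⟩ := h1
    refine ⟨b1.trans (a1.symm.trans c1), ?_⟩
    rw [b2, ← a2]
    exact c2

theorem levs {S S' C C' : Set Pt} (hS : IsLev S) (hS' : IsLev S') (hC : IsLev C) (hC' : IsLev C')
    {a b c d : Pt} (a1 : a ∈ S) (a2 : a ∈ C) (b1 : b ∈ S) (b2 : b ∈ C') (c1 : c ∈ S')
    (c2 : c ∈ C) (d1 : d ∈ S') (d2 : d ∈ C') (na : a ∉ S') (na' : a ∉ C') (nb : b ∉ S')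
    (nb' : b ∉ C) (nc : c ∉ S) (nc' : c ∉ C') (nd : d ∉ S) (nd' : d ∉ C) : False := by
  obtain ⟨σ1, Z1, hZ1, rfl⟩ := hS
  obtain ⟨σ2, Z2, hZ2, rfl⟩ := hS'
  obtain ⟨τ1, Y1, hY1, rfl⟩ := hC
  obtain ⟨τ2, Y2, hY2, rfl⟩ := hC'
  obtain ⟨a1, a1'⟩ := a1
  obtain ⟨a2, a2'⟩ := a2
  obtain ⟨b1, b1'⟩ := b1
  obtain ⟨b2, b2'⟩ := b2
  obtain ⟨c1, c1'⟩ := c1
  obtain ⟨c2, c2'⟩ := c2
  obtain ⟨d1, d1'⟩ := d1
  obtain ⟨d2, d2'⟩ := d2
  have e1 : σ2 = σ1 := by rw [← c1, c2, ← a2, a1]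
  have e2 : τ1 = σ1 := by rw [← a2, a1]
  have e3 : τ2 = σ1 := by rw [← b2, b1]
  subst e1 e2 e3
  have key : ∀ {Z : Set ℕ}, Z.OrdConnected → ∀ {p q r : Pt}, p.lev ∈ Z → q.lev ∈ Z →
      r.lev ∉ Z → ¬ (p.lev ≤ r.lev ∧ r.lev ≤ q.lev) := fun hZ p q r hp hq hr h =>
    hr (hZ.out hp hq ⟨h.1, h.2⟩)
  have na1 : a.lev ∉ Z2 := fun h => na ⟨a1, h⟩
  have na2 : a.lev ∉ Y2 := fun h => na' ⟨a1, h⟩
  have nb1 : b.lev ∉ Z2 := fun h => nb ⟨b1, h⟩
  have nb2 : b.lev ∉ Y1 := fun h => nb' ⟨b1, h⟩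
  have nc1 : c.lev ∉ Z1 := fun h => nc ⟨c1, h⟩
  have nc2 : c.lev ∉ Y2 := fun h => nc' ⟨c1, h⟩
  have nd1 : d.lev ∉ Z1 := fun h => nd ⟨d1, h⟩
  have nd2 : d.lev ∉ Y1 := fun h => nd' ⟨d1, h⟩
  have k1 := key hZ1 a1' b1' nc1
  have k2 := key hZ1 b1' a1' nc1
  have k3 := key hZ1 a1' b1' nd1
  have k4 := key hZ1 b1' a1' nd1
  have k5 := key hZ2 c1' d1' na1
  have k6 := key hZ2 d1' c1' na1
  have k7 := key hZ2 c1' d1' nb1
  have k8 := key hZ2 d1' c1' nb1
  have l1 := key hY1 a2' c2' nb2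
  have l2 := key hY1 c2' a2' nb2
  have l3 := key hY1 a2' c2' nd2
  have l4 := key hY1 c2' a2' nd2
  have l5 := key hY2 b2' d2' na2
  have l6 := key hY2 d2' b2' na2
  have l7 := key hY2 b2' d2' nc2
  have l8 := key hY2 d2' b2' nc2
  omega

/-- among three annuli `C j`, at most one has an outer ball containing the ball `U` -/
theorem anns_aux {U : Set Pt} {W Z : Fin 3 → Set Pt} (hZ : ∀ j, IsBall (Z j)) {x : Fin 3 → Pt}
    (h1 : ∀ j, x j ∈ U) (h2 : ∀ j, x j ∈ W j \ Z j) (h3 : ∀ j j', j ≠ j' → x j' ∉ W j \ Z j)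
    {j j' : Fin 3} (hj : j ≠ j') (h4 : U ⊆ W j) (h5 : U ⊆ W j') : False := by
  have h6 : ∀ k, k ≠ j → x k ∈ Z j := by
    intro k hk
    by_contra h
    exact h3 j k hk.symm ⟨h4 (h1 k), h⟩
  have h7 : ∀ k, k ≠ j' → x k ∈ Z j' := by
    intro k hk
    by_contra h
    exact h3 j' k hk.symm ⟨h5 (h1 k), h⟩
  have hdec : ∀ a b : Fin 3, ∃ k : Fin 3, k ≠ a ∧ k ≠ b := by decide
  obtain ⟨k, hk, hk'⟩ := hdec j j'
  rcases (hZ j).nested (hZ j') (h6 k hk) (h7 k hk') with h | h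
  · exact (h2 j').2 (h (h6 j' hj.symm))
  · exact (h2 j).2 (h (h7 j hj))

theorem anns {S C : Fin 3 → Set Pt} (hS : ∀ i, IsAnn (S i)) (hC : ∀ j, IsAnn (C j))
    {x : Fin 3 → Fin 3 → Pt} (h1 : ∀ i j, x i j ∈ S i) (h2 : ∀ i j, x i j ∈ C j)
    (h3 : ∀ i i' j, i ≠ i' → x i' j ∉ S i) (h4 : ∀ j j' i, j ≠ j' → x i j' ∉ C j) : False := by
  choose U V hU hV hS' using hS
  choose W Z hW hZ hC' using hC
  simp only [hS'] at h1 h3
  simp only [hC'] at h2 h4
  have hn : ∀ i j, U i ⊆ W j ∨ W j ⊆ U i := fun i j =>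
    (hU i).nested (hW j) (h1 i j).1 (h2 i j).1
  have c1 : ∀ i j j', j ≠ j' → U i ⊆ W j → ¬ U i ⊆ W j' := fun i j j' hj ha hb =>
    anns_aux (U := U i) (W := W) (Z := Z) hZ (x := x i) (fun j => (h1 i j).1) (h2 i)
      (fun j j' hjj => h4 j j' i hjj) hj ha hb
  have c2 : ∀ j i i', i ≠ i' → W j ⊆ U i → ¬ W j ⊆ U i' := fun j i i' hi ha hb =>
    anns_aux (U := W j) (W := U) (Z := V) hV (x := fun i => x i j) (fun i => (h2 i j).1)
      (fun i => h1 i j) (fun i i' hii => h3 i i' j hii) hi ha hb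
  -- rows `0` and `1` share a column in which `W j` is contained in `U i`
  obtain ⟨j, hj0, hj1⟩ : ∃ j : Fin 3, ¬ U 0 ⊆ W j ∧ ¬ U 1 ⊆ W j := by
    by_contra hcon
    push Not at hcon
    have d1 : ∀ j, U 0 ⊆ W j ∨ U 1 ⊆ W j := fun j => by
      by_cases h : U 0 ⊆ W j
      · exact Or.inl h
      · exact Or.inr (hcon j h)
    have e01 := c1 0 0 1 (by decide)
    have e02 := c1 0 0 2 (by decide)
    have e12 := c1 0 1 2 (by decide)
    have f01 := c1 1 0 1 (by decide)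
    have f02 := c1 1 0 2 (by decide)
    have f12 := c1 1 1 2 (by decide)
    have g0 := d1 0
    have g1 := d1 1
    have g2 := d1 2
    tauto
  exact c2 j 0 1 (by decide) ((hn 0 j).resolve_left hj0) ((hn 1 j).resolve_left hj1)

theorem three {S C : Fin 3 → Set Pt} (hS : ∀ i, IsLev (S i) ∨ IsAnn (S i))
    (hC : ∀ j, IsLev (C j) ∨ IsAnn (C j)) {x : Fin 3 → Fin 3 → Pt} (h1 : ∀ i j, x i j ∈ S i)
    (h2 : ∀ i j, x i j ∈ C j) (h3 : ∀ i i' j, i ≠ i' → x i' j ∉ S i)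
    (h4 : ∀ j j' i, j ≠ j' → x i j' ∉ C j) : False := by
  have m1 : ∀ i j, IsLev (S i) → ¬ IsAnn (C j) := by
    intro i j ha hb
    have hdec : ∀ a : Fin 3, ∃ k : Fin 3, a ≠ k := by decide
    obtain ⟨i', hi'⟩ := hdec i
    exact h3 i i' j hi' (mixed ha hb (h1 i j) (h2 i j) (h2 i' j))
  have m2 : ∀ i j, IsLev (C j) → ¬ IsAnn (S i) := by
    intro i j ha hb
    have hdec : ∀ a : Fin 3, ∃ k : Fin 3, a ≠ k := by decide
    obtain ⟨j', hj'⟩ := hdec j
    exact h4 j j' i hj' (mixed ha hb (h2 i j) (h1 i j) (h1 i j'))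
  rcases hS 0 with h | h
  · have hC' : ∀ j, IsLev (C j) := fun j => (hC j).resolve_right (m1 0 j h)
    have hS' : ∀ i, IsLev (S i) := fun i => (hS i).resolve_right (m2 i 0 (hC' 0))
    exact levs (hS' 0) (hS' 1) (hC' 0) (hC' 1) (h1 0 0) (h2 0 0) (h1 0 1) (h2 0 1) (h1 1 0)
      (h2 1 0) (h1 1 1) (h2 1 1) (h3 1 0 0 (by decide)) (h4 1 0 0 (by decide))
      (h3 1 0 1 (by decide)) (h4 0 1 0 (by decide)) (h3 0 1 0 (by decide)) (h4 1 0 1 (by decide))
      (h3 0 1 1 (by decide)) (h4 0 1 1 (by decide))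
  · have hC' : ∀ j, IsAnn (C j) := fun j => (hC j).resolve_left fun h' => m2 0 j h' h
    have hS' : ∀ i, IsAnn (S i) := fun i => (hS i).resolve_left fun h' => m1 i 0 h' (hC' 0)
    exact anns hS' hC' h1 h2 h3 h4

end Pool.Agent.Helper59.DF
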