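import Mathlib

/-!
# Approximate order isomorphisms between sets of natural numbers, and nodes of the binary tree
-/

set_option autoImplicit false

namespace Pool.Agent.Helper59.DF

/-- the relation `Q` preserves differences up to `K` -/
def Close (K : ℕ) (Q : ℕ → ℕ → Prop) : Prop :=
  ∀ a a' b b', Q a a' → Q b b' → min (a - b) K = min (a' - b') K

theorem Close.mono {K K' : ℕ} {Q : ℕ → ℕ → Prop} (h : Close K' Q) (hK : K ≤ K') : Close K Q := by
  intro a a' b b' h1 h2
  have := h a a' b b' h1 h2
  omega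

theorem Close.sub {K : ℕ} {Q Q' : ℕ → ℕ → Prop} (h : Close K Q) (hQ : ∀ a a', Q' a a' → Q a a') :
    Close K Q' :=
  fun a a' b b' h1 h2 => h a a' b b' (hQ _ _ h1) (hQ _ _ h2)

theorem Close.lt_iff {K : ℕ} {Q : ℕ → ℕ → Prop} (h : Close K Q) (hK : 1 ≤ K) {a a' b b' : ℕ}
    (h1 : Q a a') (h2 : Q b b') : a < b ↔ a' < b' := by
  have := h b b' a a' h2 h1
  omega

theorem Close.le_iff {K : ℕ} {Q : ℕ → ℕ → Prop} (h : Close K Q) (hK : 1 ≤ K) {a a' b b' : ℕ}
    (h1 : Q a a') (h2 : Q b b') : a ≤ b ↔ a' ≤ b' := by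
  have := h a a' b b' h1 h2
  omega

theorem Close.eq_iff {K : ℕ} {Q : ℕ → ℕ → Prop} (h : Close K Q) (hK : 1 ≤ K) {a a' b b' : ℕ}
    (h1 : Q a a') (h2 : Q b b') : a = b ↔ a' = b' := by
  have := h a a' b b' h1 h2
  have := h b b' a a' h2 h1
  omega

theorem Close.min_mem {K : ℕ} {Q : ℕ → ℕ → Prop} (h : Close K Q) (hK : 1 ≤ K) {a a' b b' : ℕ}
    (h1 : Q a a') (h2 : Q b b') : Q (min a b) (min a' b') := by
  have h3 := h.le_iff hK h1 h2
  by_cases h4 : a ≤ b
  · rw [min_eq_left h4, min_eq_left (h3.1 h4)]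
    exact h1
  · have h5 : ¬ a' ≤ b' := fun h6 => h4 (h3.2 h6)
    rw [min_eq_right (by omega), min_eq_right (by omega)]
    exact h2

/-- `Q` with one more pair -/
def add (Q : ℕ → ℕ → Prop) (l l' : ℕ) : ℕ → ℕ → Prop := fun a a' => Q a a' ∨ (a = l ∧ a' = l')

theorem close_add {K : ℕ} {Q : ℕ → ℕ → Prop} (h : Close K Q) {l l' : ℕ}
    (h1 : ∀ b b', Q b b' → min (l - b) K = min (l' - b') K)
    (h2 : ∀ b b', Q b b' → min (b - l) K = min (b' - l') K) : Close K (add Q l l') := by
  rintro a a' b b' (ha | ⟨rfl, rfl⟩) (hb | ⟨rfl, rfl⟩)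
  · exact h _ _ _ _ ha hb
  · exact h2 _ _ ha
  · exact h1 _ _ hb
  · simp

/-- one point extension -/
theorem Close.ext {K : ℕ} {Q : ℕ → ℕ → Prop} (h : Close (2 * K) Q) (hK : 1 ≤ K) (h0 : Q 0 0)
    (l : ℕ) : ∃ l', Close K (add Q l l') := by
  classical
  have hc : Close K Q := h.mono (by omega)
  -- the greatest point below `l`
  obtain ⟨p, p', hp, hpl, hpm⟩ : ∃ p p', Q p p' ∧ p ≤ l ∧ ∀ b b', Q b b' → b ≤ l → b ≤ p := by
    let P : ℕ → Prop := fun b => ∃ b', Q b b'
    have hP0 : P 0 := ⟨0, h0⟩
    obtain ⟨p', hp'⟩ : P (Nat.findGreatest P l) := Nat.findGreatest_spec (Nat.zero_le l) hP0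
    exact ⟨_, p', hp', Nat.findGreatest_le _, fun b b' hb hbl => Nat.le_findGreatest hbl ⟨b', hb⟩⟩
  by_cases c1 : l - p < K
  · refine ⟨p' + (l - p), close_add hc ?_ ?_⟩
    · intro b b' hb
      have e1 := h _ _ _ _ hp hb
      have e2 := h _ _ _ _ hb hp
      have e3 := hpm b b' hb
      by_cases c2 : b ≤ l
      · have := e3 c2
        omega
      · omega
    · intro b b' hb
      have e1 := h _ _ _ _ hp hb
      have e2 := h _ _ _ _ hb hp
      have e3 := hpm b b' hb
      by_cases c2 : b ≤ l
      · have := e3 c2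
        omega
      · omega
  · by_cases c3 : ∃ q, ∃ q', Q q q' ∧ l ≤ q
    · obtain ⟨q, ⟨q', hq, hlq⟩, hqm⟩ : ∃ q, (∃ q', Q q q' ∧ l ≤ q) ∧
          ∀ b b', Q b b' → l ≤ b → q ≤ b := by
        refine ⟨Nat.find c3, Nat.find_spec c3, fun b b' hb hlb => Nat.find_min' c3 ⟨b', hb, hlb⟩⟩
      have f1 := h _ _ _ _ hp hq
      have f2 := h _ _ _ _ hq hp
      by_cases c4 : q - l < K
      · refine ⟨q' - (q - l), close_add hc ?_ ?_⟩
        · intro b b' hb
          have e1 := h _ _ _ _ hq hb
          have e2 := h _ _ _ _ hb hq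
          have e3 := hqm b b' hb
          by_cases c2 : l ≤ b
          · have := e3 c2
            omega
          · omega
        · intro b b' hb
          have e1 := h _ _ _ _ hq hb
          have e2 := h _ _ _ _ hb hq
          have e3 := hqm b b' hb
          by_cases c2 : l ≤ b
          · have := e3 c2
            omega
          · omega
      · refine ⟨p' + K, close_add hc ?_ ?_⟩
        · intro b b' hb
          have e1 := h _ _ _ _ hp hb
          have e2 := h _ _ _ _ hb hp
          have e3 := hqm b b' hb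
          have e4 := hpm b b' hb
          by_cases c2 : l ≤ b
          · have := e3 c2
            omega
          · have := e4 (by omega)
            omega
        · intro b b' hb
          have e1 := h _ _ _ _ hp hb
          have e2 := h _ _ _ _ hb hp
          have e3 := hqm b b' hb
          have e4 := hpm b b' hb
          by_cases c2 : l ≤ b
          · have := e3 c2
            omega
          · have := e4 (by omega)
            omega
    · refine ⟨p' + K, close_add hc ?_ ?_⟩
      · intro b b' hb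
        have e1 := h _ _ _ _ hp hb
        have e2 := h _ _ _ _ hb hp
        have e4 := hpm b b' hb
        by_cases c2 : l ≤ b
        · exact absurd ⟨b, b', hb, c2⟩ c3
        · have := e4 (by omega)
          omega
      · intro b b' hb
        have e1 := h _ _ _ _ hp hb
        have e2 := h _ _ _ _ hb hp
        have e4 := hpm b b' hb
        by_cases c2 : l ≤ b
        · exact absurd ⟨b, b', hb, c2⟩ c3
        · have := e4 (by omega)
          omega

/-! ### nodes of the binary tree -/

/-- infinite binary strings -/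
abbrev Str : Type := ℕ → ZMod 2

open Classical in
/-- the length of the common prefix of `f` and `g`, but at most `c` -/
noncomputable def mt (c : ℕ) (f g : Str) : ℕ := Nat.findGreatest (fun j => ∀ t < j, f t = g t) c

theorem le_mt {c : ℕ} {f g : Str} {j : ℕ} : j ≤ mt c f g ↔ j ≤ c ∧ ∀ t < j, f t = g t := by
  classical
  unfold mt
  constructor
  · intro h
    have h1 : (∀ t < Nat.findGreatest (fun j => ∀ t < j, f t = g t) c, f t = g t) :=
      Nat.findGreatest_spec (P := fun j => ∀ t < j, f t = g t) (Nat.zero_le c)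
        (fun t ht => absurd ht (Nat.not_lt_zero t))
    exact ⟨h.trans (Nat.findGreatest_le _), fun t ht => h1 t (lt_of_lt_of_le ht h)⟩
  · rintro ⟨h1, h2⟩
    exact Nat.le_findGreatest h1 h2

/-- a node of the binary tree: a string `f` cut at length `c` -/
structure Node where
  c : ℕ
  f : Str

/-- the level of the meet of two nodes -/
noncomputable def meet (x y : Node) : ℕ := mt (min x.c y.c) x.f y.f

theorem le_meet {x y : Node} {j : ℕ} :
    j ≤ meet x y ↔ j ≤ x.c ∧ j ≤ y.c ∧ ∀ t < j, x.f t = y.f t := by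
  rw [meet, le_mt, le_min_iff, and_assoc]

theorem meet_comm (x y : Node) : meet x y = meet y x := by
  apply le_antisymm
  · have := (le_meet (x := x) (y := y)).1 le_rfl
    exact le_meet.2 ⟨this.2.1, this.1, fun t ht => (this.2.2 t ht).symm⟩
  · have := (le_meet (x := y) (y := x)).1 le_rfl
    exact le_meet.2 ⟨this.2.1, this.1, fun t ht => (this.2.2 t ht).symm⟩

theorem meet_le_left (x y : Node) : meet x y ≤ x.c := (le_meet.1 le_rfl).1

theorem meet_le_right (x y : Node) : meet x y ≤ y.c := (le_meet.1 le_rfl).2.1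

theorem meet_agree (x y : Node) {t : ℕ} (h : t < meet x y) : x.f t = y.f t :=
  (le_meet.1 le_rfl).2.2 t h

theorem meet_self (x : Node) : meet x x = x.c :=
  le_antisymm (meet_le_left x x) (le_meet.2 ⟨le_rfl, le_rfl, fun _ _ => rfl⟩)

theorem meet_tri (x y z : Node) : min (meet x y) (meet y z) ≤ meet x z := by
  rw [le_meet]
  refine ⟨(min_le_left _ _).trans (meet_le_left _ _), (min_le_right _ _).trans (meet_le_right _ _),
    fun t ht => ?_⟩
  rw [lt_min_iff] at ht
  exact (meet_agree x y ht.1).trans (meet_agree y z ht.2)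

theorem meet_ne {x y : Node} (h1 : meet x y < x.c) (h2 : meet x y < y.c) :
    x.f (meet x y) ≠ y.f (meet x y) := by
  intro h
  have : meet x y + 1 ≤ meet x y := by
    rw [le_meet]
    refine ⟨h1, h2, fun t ht => ?_⟩
    rcases Nat.lt_succ_iff_lt_or_eq.1 ht with h3 | h3
    · exact meet_agree x y h3
    · rw [h3]
      exact h
  omega

theorem zmod2_ne {a b c : ZMod 2} (h1 : a ≠ b) (h2 : a ≠ c) : b = c := by
  revert a b c
  decide

/-- binary branching -/
theorem meet_bin {x y z : Node} {n : ℕ} (h1 : meet x y = n) (h2 : meet x z = n) (h3 : n < x.c)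
    (h4 : n < y.c) (h5 : n < z.c) : n < meet y z := by
  subst h1
  have e1 := meet_ne h3 h4
  have e2 := meet_ne (x := x) (y := z) (by omega) (by omega)
  rw [h2] at e2
  rw [Nat.lt_iff_add_one_le, le_meet]
  refine ⟨h4, h5, fun t ht => ?_⟩
  rcases Nat.lt_succ_iff_lt_or_eq.1 ht with h6 | h6
  · exact (meet_agree x y h6).symm.trans (meet_agree x z (by omega))
  · rw [h6]
    exact zmod2_ne e1 e2

theorem meet_eq_of {x y : Node} {n : ℕ} (h1 : n ≤ x.c) (h2 : n ≤ y.c)
    (h3 : ∀ t < n, x.f t = y.f t) (h4 : n = x.c ∨ n = y.c ∨ x.f n ≠ y.f n) : meet x y = n := by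
  apply le_antisymm
  · by_contra h5
    rw [not_le] at h5
    rcases h4 with h6 | h6 | h6
    · have := meet_le_left x y
      omega
    · have := meet_le_right x y
      omega
    · exact h6 (meet_agree x y h5)
  · exact le_meet.2 ⟨h1, h2, h3⟩

end Pool.Agent.Helper59.DF
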