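import Mathlib

/-!
# Dp-minimal structures, distal structures, definable types, definable directed families
-/

set_option autoImplicit false

open FirstOrder FirstOrder.Language

namespace Pool.Agent.Helper59.DF

/-- The theory of the structure `M` is dp-minimal: there is no pattern of depth two in one
variable.  That is, in no elementary extension `N` of `M` are there formulas `φ(x; y)`, `ψ(x; z)`
with `x` a single variable and sequences `a i`, `c j` of tuples of `N` such that for all `i`, `j`
some element `x` of `N` satisfies `φ(x; a i')` exactly for `i' = i` and `ψ(x; c j')` exactly for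
`j' = j`. -/
def IsDpMinimal (L : FirstOrder.Language.{0, 0}) (M : Type) [L.Structure M] : Prop :=
  ∀ (N : Type) [L.Structure N] (_ : M ↪ₑ[L] N) (k l : ℕ) (φ : L.Formula (Fin 1 ⊕ Fin k))
    (ψ : L.Formula (Fin 1 ⊕ Fin l)) (a : ℕ → Fin k → N) (c : ℕ → Fin l → N),
    ¬ ∀ i j : ℕ, ∃ x : N,
      (∀ i', φ.Realize (Sum.elim (fun _ => x) (a i')) ↔ i' = i) ∧
      (∀ j', ψ.Realize (Sum.elim (fun _ => x) (c j')) ↔ j' = j)

/-- The sequence `b` of `m`-tuples, indexed by the linear order `I`, is indiscernible over the set
`A`: for every formula with parameters in `A`, all increasing sequences of indices give tuples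
with the same truth value. -/
def Indisc (L : FirstOrder.Language.{0, 0}) {N : Type} [L.Structure N] {I : Type} [LinearOrder I]
    {m : ℕ} (A : Set N) (b : I → Fin m → N) : Prop :=
  ∀ (r : ℕ) (φ : L.Formula ((Fin r × Fin m) ⊕ A)) (s t : Fin r → I), StrictMono s → StrictMono t →
    (φ.Realize (Sum.elim (fun q => b (s q.1) q.2) (fun a => (a : N))) ↔
      φ.Realize (Sum.elim (fun q => b (t q.1) q.2) (fun a => (a : N))))

/-- The theory of the structure `M` is distal: in every elementary extension `N` of `M`, for every
dense linear order `I` without endpoints, every point `c` of `I`, every indiscernible sequence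
`b` of tuples of `N` indexed by `I` and every set `A` of elements of `N`: if the sequence without
its member `b c` is indiscernible over `A`, then the whole sequence is indiscernible over `A`. -/
def IsDistal (L : FirstOrder.Language.{0, 0}) (M : Type) [L.Structure M] : Prop :=
  ∀ (N : Type) [L.Structure N] (_ : M ↪ₑ[L] N) (I : Type) [LinearOrder I] [DenselyOrdered I]
    [NoMinOrder I] [NoMaxOrder I] (c : I) (m : ℕ) (b : I → Fin m → N) (A : Set N),
    Indisc L ∅ b → Indisc L A (fun i : {i : I // i ≠ c} => b i) → Indisc L A b

section types

variable {L : FirstOrder.Language.{0, 0}} {M : Type} [L.Structure M] {n : ℕ}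

/-- the formula with parameters `φ(x; b)`, for a formula `φ(x; y)` and a tuple `b` of `M` -/
def inst {k : ℕ} (φ : L.Formula (Fin n ⊕ Fin k)) (b : Fin k → M) : L[[M]].Formula (Fin n) :=
  ((L.lhomWithConstants M).onFormula φ).subst
    (Sum.elim (fun i => Term.var i) (fun j => (L.con (b j)).term))

/-- the formula `φ` with parameters in `M` belongs to the complete `n`-type `p` over `M` -/
def FormulaMem (φ : L[[M]].Formula (Fin n)) (p : (L.elementaryDiagram M).CompleteType (Fin n)) :
    Prop :=
  Formula.equivSentence φ ∈ p

/-- the definable set `D` belongs to the complete `n`-type `p` over `M`: some formula with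
parameters in `M` that defines `D` belongs to `p` -/
def SetMem (D : Set (Fin n → M)) (p : (L.elementaryDiagram M).CompleteType (Fin n)) : Prop :=
  ∃ φ : L[[M]].Formula (Fin n), D = {a | φ.Realize a} ∧ FormulaMem φ p

/-- the complete `n`-type `p` over `M` is definable: for every formula `φ(x; y)` the set of the
tuples `b` of `M` with `φ(x; b)` in `p` is definable in `M` with parameters -/
def IsDefinableType (p : (L.elementaryDiagram M).CompleteType (Fin n)) : Prop :=
  ∀ (k : ℕ) (φ : L.Formula (Fin n ⊕ Fin k)),
    (Set.univ : Set M).Definable L {b : Fin k → M | FormulaMem (inst φ b) p}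

/-- the member `X_b` of the family given by `X` -/
def fiber {m : ℕ} (X : Set (Fin m ⊕ Fin n → M)) (b : Fin m → M) : Set (Fin n → M) :=
  {a | Sum.elim b a ∈ X}

/-- the family of the sets `X_b`, `b ∈ Y`, is a definable (with parameters) family of nonempty
subsets of `M ^ n` which is downward directed -/
structure IsDirectedFamily (L : FirstOrder.Language.{0, 0}) {M : Type} [L.Structure M] {m n : ℕ}
    (Y : Set (Fin m → M)) (X : Set (Fin m ⊕ Fin n → M)) : Prop where
  definable_index : (Set.univ : Set M).Definable L Y
  definable_family : (Set.univ : Set M).Definable L X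
  nonempty_index : Y.Nonempty
  nonempty : ∀ b ∈ Y, (fiber X b).Nonempty
  directed : ∀ b ∈ Y, ∀ b' ∈ Y, ∃ c ∈ Y, fiber X c ⊆ fiber X b ∩ fiber X b'

end types

end Pool.Agent.Helper59.DF
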