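import Pool.Agent.Helper59.DF.Ext

/-!
# The combinatorial core of distality
-/

set_option autoImplicit false
set_option linter.unusedSectionVars false
set_option linter.unusedVariables false
set_option maxHeartbeats 4000000

namespace Pool.Agent.Helper59.DF

/-- the maps `f` and `g` have the same order type -/
def OT (f g : Fin 5 → Fin 5) : Prop := ∀ i j, f i < f j ↔ g i < g j

instance (f g : Fin 5 → Fin 5) : Decidable (OT f g) := by
  unfold OT
  infer_instance

section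

variable {ρ β : Type} [Fintype ρ] [Fintype β]

/-- five tuples in the order given by `f` -/
def Y (y : Fin 5 → ρ → Pt) (f : Fin 5 → Fin 5) : Fin 5 × ρ → Pt := fun q => y (f q.1) q.2

/-- coefficients in the place `i` -/
def E (e : ρ → ZMod 2) (i : Fin 5) : Fin 5 × ρ → ZMod 2 := fun q => if q.1 = i then e q.2 else 0

theorem sum_Y (y : Fin 5 → ρ → Pt) (f : Fin 5 → Fin 5) (e : ρ → ZMod 2) (i : Fin 5)
    (g : Pt → ZMod 2) : ∑ q, g (Y y f q) * E e i q = ∑ r, g (y (f i) r) * e r := by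
  rw [Fintype.sum_prod_type, Finset.sum_eq_single i]
  · refine Finset.sum_congr rfl fun r _ => ?_
    simp only [Y, E, if_true]
  · intro j _ hj
    refine Finset.sum_eq_zero fun r _ => ?_
    simp only [E]
    rw [if_neg hj, mul_zero]
  · intro h
    exact absurd (Finset.mem_univ _) h

theorem E_ne {e : ρ → ZMod 2} (he : e ≠ 0) (i : Fin 5) : E e i ≠ 0 := by
  intro h
  apply he
  funext r
  have := congrFun h (i, r)
  simpa [E] using this

theorem node_Y (y : Fin 5 → ρ → Pt) (f : Fin 5 → Fin 5) {e : ρ → ZMod 2} (he : e ≠ 0)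
    (i : Fin 5) : node (Y y f) (E e i) = node (y (f i)) e := by
  unfold node
  congr 1
  · apply le_antisymm
    · rw [le_cap he]
      intro r hr
      exact cap_le (v := Y y f) (e := E e i) (i := (i, r)) (by simpa [E] using hr)
    · rw [le_cap (E_ne he i)]
      rintro ⟨j, r⟩ hj
      by_cases h : j = i
      · subst h
        exact cap_le (by simpa [E] using hj)
      · exact absurd (by simp [E, h]) hj
  · funext t
    exact sum_Y y f e i (fun x => x.str t)

theorem bal_Y {y : Fin 5 → ρ → Pt} {a : β → Pt} {e : ρ → ZMod 2} {e' : β → ZMod 2}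
    (hB : ∀ j, Bal (Sum.elim (y j) a) (Sum.elim e e')) (f : Fin 5 → Fin 5) (i : Fin 5) :
    Bal (Sum.elim (Y y f) a) (Sum.elim (E e i) e') := by
  have h := hB (f i)
  rw [bal_elim] at h ⊢
  refine ⟨fun d => ?_, ?_⟩
  · rw [sum_Y y f e i (fun x => if x.lev = d then (1 : ZMod 2) else 0)]
    exact h.1 d
  · rw [sum_Y y f e i (fun x => if x.side = true then (1 : ZMod 2) else 0)]
    exact h.2

theorem W_elim_right (v : ρ → Pt) (w : β → Pt) (e : β → ZMod 2) :
    W (Sum.elim v w) (Sum.elim 0 e) = W w e := by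
  have h1 : Bal (Sum.elim v w) (Sum.elim 0 e) ↔ Bal w e := by
    rw [bal_elim]
    simp only [Pi.zero_apply, mul_zero, Finset.sum_const_zero, Bal]
    constructor
    · rintro ⟨h1, h2⟩
      exact ⟨fun d => (h1 d).symm, h2.symm⟩
    · rintro ⟨h1, h2⟩
      exact ⟨fun d => (h1 d).symm, h2.symm⟩
  have h2 : sm (Sum.elim v w) (Sum.elim 0 e) = sm w e := by
    rw [sm_elim]
    funext t
    simp [sm]
  have h3 : cap (Sum.elim v w) (Sum.elim 0 e) = cap w e := by
    by_cases he : e = 0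
    · subst he
      have : (Sum.elim (0 : ρ → ZMod 2) (0 : β → ZMod 2)) = 0 := by
        funext i
        rcases i with i | i <;> rfl
      rw [this, cap_zero, cap_zero]
    · have h0 : Sum.elim (0 : ρ → ZMod 2) e ≠ 0 := by
        intro h
        apply he
        funext i
        exact congrFun h (.inr i)
      apply le_antisymm
      · rw [le_cap he]
        intro i hi
        exact cap_le (v := Sum.elim v w) (e := Sum.elim 0 e) (i := .inr i) hi
      · rw [le_cap h0]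
        rintro (i | i) hi
        · exact absurd rfl hi
        · exact cap_le hi
  by_cases hb : Bal w e
  · rw [W_of_bal hb, W_of_bal (h1.2 hb), h2, h3]
  · rw [W_of_not_bal hb, W_of_not_bal fun h => hb (h1.1 h)]

variable {K : ℕ} {y : Fin 5 → ρ → Pt} {a : β → Pt}

/-- the triple of places `0`, `j`, `4` -/
def Zf (j : Fin 5) : Fin 5 → Fin 5 := ![0, j, 4, 4, 4]

/-- values that depend only on the sequence -/
def IntVal (y : Fin 5 → ρ → Pt) (H : Fin 5 → ℕ) : Prop :=
  ∀ j j' : Fin 5, 0 < j → j < 4 → 0 < j' → j' < 4 → Q (Y y (Zf j)) (Y y (Zf j')) (H j) (H j')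

/-- constant values, or values that depend only on the sequence -/
def Good (y : Fin 5 → ρ → Pt) (H : Fin 5 → ℕ) : Prop := (H 1 = H 2 ∧ H 2 = H 3) ∨ IntVal y H

theorem IntVal.mono (hK : 1 ≤ K) (h1 : ∀ f g, OT f g → Sim K (Y y f) (Y y g)) {H : Fin 5 → ℕ}
    (hH : IntVal y H) : (H 1 ≤ H 2 ∧ H 2 ≤ H 3) ∨ (H 3 ≤ H 2 ∧ H 2 ≤ H 1) := by
  have hS : Sim K (Y y ![0, 1, 2, 4, 4]) (Y y ![0, 2, 3, 4, 4]) := h1 _ _ (by decide)
  have e1 : Q (Y y ![0, 1, 2, 4, 4]) (Y y ![0, 2, 3, 4, 4]) (H 1) (H 2) := by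
    refine Q_comp hK hS (fun q : Fin 5 × ρ => ((![0, 1, 3, 3, 3] : Fin 5 → Fin 5) q.1, q.2)) ?_
    have h2 := hH 1 2 (by decide) (by decide) (by decide) (by decide)
    have h3 : Y y (Zf 1) = fun b => Y y ![0, 1, 2, 4, 4]
        ((fun q : Fin 5 × ρ => ((![0, 1, 3, 3, 3] : Fin 5 → Fin 5) q.1, q.2)) b) := by
      funext ⟨i, r⟩
      fin_cases i <;> rfl
    have h4 : Y y (Zf 2) = fun b => Y y ![0, 2, 3, 4, 4]
        ((fun q : Fin 5 × ρ => ((![0, 1, 3, 3, 3] : Fin 5 → Fin 5) q.1, q.2)) b) := by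
      funext ⟨i, r⟩
      fin_cases i <;> rfl
    rw [h3, h4] at h2
    exact h2
  have e2 : Q (Y y ![0, 1, 2, 4, 4]) (Y y ![0, 2, 3, 4, 4]) (H 2) (H 3) := by
    refine Q_comp hK hS (fun q : Fin 5 × ρ => ((![0, 2, 3, 3, 3] : Fin 5 → Fin 5) q.1, q.2)) ?_
    have h2 := hH 2 3 (by decide) (by decide) (by decide) (by decide)
    have h3 : Y y (Zf 2) = fun b => Y y ![0, 1, 2, 4, 4]
        ((fun q : Fin 5 × ρ => ((![0, 2, 3, 3, 3] : Fin 5 → Fin 5) q.1, q.2)) b) := by
      funext ⟨i, r⟩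
      fin_cases i <;> rfl
    have h4 : Y y (Zf 3) = fun b => Y y ![0, 2, 3, 4, 4]
        ((fun q : Fin 5 × ρ => ((![0, 2, 3, 3, 3] : Fin 5 → Fin 5) q.1, q.2)) b) := by
      funext ⟨i, r⟩
      fin_cases i <;> rfl
    rw [h3, h4] at h2
    exact h2
  have e3 := hS.close.lt_iff hK e1 e2
  have e4 := hS.close.lt_iff hK e2 e1
  omega

theorem good_close (hK : 1 ≤ K) (h1 : ∀ f g, OT f g → Sim K (Y y f) (Y y g)) {H H' : Fin 5 → ℕ}
    (hH : Good y H) (hH' : Good y H') (h2 : min (H 1 - H' 1) K = min (H 3 - H' 3) K) :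
    min (H 2 - H' 2) K = min (H 1 - H' 1) K := by
  rcases hH with hH | hH <;> rcases hH' with hH' | hH'
  · omega
  · have := hH'.mono hK h1
    omega
  · have := hH.mono hK h1
    omega
  · exact (h1 (Zf 2) (Zf 1) (by decide)).close _ _ _ _
      (hH 2 1 (by decide) (by decide) (by decide) (by decide))
      (hH' 2 1 (by decide) (by decide) (by decide) (by decide))

/-- the meets with the node of the parameters -/
theorem good_meet (hK : 1 ≤ K) (h1 : ∀ f g, OT f g → Sim K (Y y f) (Y y g))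
    (h2 : ∀ f g, OT f g → (∀ i, f i ≠ 2) → (∀ i, g i ≠ 2) →
      Sim K (Sum.elim (Y y f) a) (Sum.elim (Y y g) a)) {e : ρ → ZMod 2} {e' : β → ZMod 2}
    (he : e ≠ 0) (he' : e' ≠ 0) (hB : ∀ j, Bal (Sum.elim (y j) a) (Sum.elim e e')) :
    Good y (fun j => meet (node (y j) e) (node a e')) := by
  set ν : Fin 5 → Node := fun j => node (y j) e with hν
  set α : Node := node a e' with hα
  set F : Fin 5 → ℕ := fun j => meet (ν j) α with hF
  set G : Fin 5 → Fin 5 → ℕ := fun i j => meet (ν i) (ν j) with hG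
  set c : Fin 5 → ℕ := fun j => (ν j).c with hc
  have hQG : ∀ f g, OT f g → ∀ i j, Q (Y y f) (Y y g) (G (f i) (f j)) (G (g i) (g j)) := by
    intro f g hfg i j
    have h3 := Q_meet hK (h1 f g hfg) (E_ne he i) (E_ne he j) (bal_add (bal_Y hB f i) (bal_Y hB f j))
    rw [node_Y y f he, node_Y y f he, node_Y y g he, node_Y y g he] at h3
    exact h3
  have hQc : ∀ f g, OT f g → ∀ i, Q (Y y f) (Y y g) (c (f i)) (c (g i)) := by
    intro f g hfg i
    have h3 := Q_cap hK (h1 f g hfg).close (E e i)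
    have h4 : cap (Y y f) (E e i) = c (f i) := congrArg Node.c (node_Y y f he i)
    have h5 : cap (Y y g) (E e i) = c (g i) := congrArg Node.c (node_Y y g he i)
    rw [h4, h5] at h3
    exact h3
  have hQF : ∀ f g, OT f g → (∀ i, f i ≠ 2) → (∀ i, g i ≠ 2) → ∀ i,
      Q (Sum.elim (Y y f) a) (Sum.elim (Y y g) a) (F (f i)) (F (g i)) := by
    intro f g hfg hf hg i
    have h3 := Q_W (Sum.elim (Y y f) a) (Sum.elim (Y y g) a) (Sum.elim (E e i) e')
    rw [W_elim _ _ (E_ne he i) he' (bal_Y hB f i), W_elim _ _ (E_ne he i) he' (bal_Y hB g i),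
      node_Y y f he, node_Y y g he] at h3
    exact h3
  have hQc' : ∀ f g, OT f g → (∀ i, f i ≠ 2) → (∀ i, g i ≠ 2) → ∀ i,
      Q (Sum.elim (Y y f) a) (Sum.elim (Y y g) a) (c (f i)) (c (g i)) := by
    intro f g hfg hf hg i
    exact Q_comp hK (h2 f g hfg hf hg) (Sum.inl : Fin 5 × ρ → (Fin 5 × ρ) ⊕ β) (hQc f g hfg i)
  -- comparisons
  have cG : ∀ f g, OT f g → ∀ i j k l, (G (f i) (f j) < G (f k) (f l) ↔
      G (g i) (g j) < G (g k) (g l)) := fun f g hfg i j k l =>
    (h1 f g hfg).close.lt_iff hK (hQG f g hfg i j) (hQG f g hfg k l)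
  have cGc : ∀ f g, OT f g → ∀ i j k, (G (f i) (f j) < c (f k) ↔
      G (g i) (g j) < c (g k)) := fun f g hfg i j k =>
    (h1 f g hfg).close.lt_iff hK (hQG f g hfg i j) (hQc f g hfg k)
  have cF : ∀ f g, OT f g → (∀ i, f i ≠ 2) → (∀ i, g i ≠ 2) → ∀ i j, (F (f i) < F (f j) ↔
      F (g i) < F (g j)) := fun f g hfg hf hg i j =>
    (h2 f g hfg hf hg).close.lt_iff hK (hQF f g hfg hf hg i) (hQF f g hfg hf hg j)
  have cFc : ∀ f g, OT f g → (∀ i, f i ≠ 2) → (∀ i, g i ≠ 2) → ∀ i j, (F (f i) < c (f j) ↔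
      F (g i) < c (g j)) := fun f g hfg hf hg i j =>
    (h2 f g hfg hf hg).close.lt_iff hK (hQF f g hfg hf hg i) (hQc' f g hfg hf hg j)
  -- general facts on meets
  have Fc : ∀ i, F i ≤ c i := fun i => meet_le_left _ _
  have Fk : ∀ i, F i ≤ α.c := fun i => meet_le_right _ _
  have Gc : ∀ i j, G i j ≤ c i := fun i j => meet_le_left _ _
  have Gc' : ∀ i j, G i j ≤ c j := fun i j => meet_le_right _ _
  have Gs : ∀ i j, G i j = G j i := fun i j => meet_comm _ _
  have T1 : ∀ i j, min (F i) (F j) ≤ G i j := fun i j => by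
    have := meet_tri (ν i) α (ν j)
    rw [meet_comm α (ν j)] at this
    exact this
  have T2 : ∀ i j, min (G i j) (F j) ≤ F i := fun i j => meet_tri (ν i) (ν j) α
  have T3 : ∀ i j k, min (G i j) (G j k) ≤ G i k := fun i j k => meet_tri (ν i) (ν j) (ν k)
  have kb : ∀ i j, F j = F i → F i < α.c → F i < c i → F j < c j → F i < G i j := by
    intro i j e1 e2 e3 e4
    refine meet_bin (x := α) (y := ν i) (z := ν j) ?_ ?_ e2 e3 ?_
    · rw [meet_comm]
    · rw [meet_comm]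
      exact e1
    · have e5 : F j < c j := e4
      rw [e1] at e5
      exact e5
  generalize α.c = κ at Fk kb
  clear_value F G c
  -- facts on single places
  have s0 := cFc (fun _ => 0) (fun _ => 1) (by decide) (by decide) (by decide) 0 0
  have s3 := cFc (fun _ => 3) (fun _ => 1) (by decide) (by decide) (by decide) 0 0
  have s4 := cFc (fun _ => 4) (fun _ => 1) (by decide) (by decide) (by decide) 0 0
  -- facts on pairs of places
  have p03 := cF ![0, 3, 3, 3, 3] ![0, 1, 1, 1, 1] (by decide) (by decide) (by decide) 0 1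
  have p04 := cF ![0, 4, 4, 4, 4] ![0, 1, 1, 1, 1] (by decide) (by decide) (by decide) 0 1
  have p13 := cF ![1, 3, 3, 3, 3] ![0, 1, 1, 1, 1] (by decide) (by decide) (by decide) 0 1
  have p14 := cF ![1, 4, 4, 4, 4] ![0, 1, 1, 1, 1] (by decide) (by decide) (by decide) 0 1
  have p34 := cF ![3, 4, 4, 4, 4] ![0, 1, 1, 1, 1] (by decide) (by decide) (by decide) 0 1
  have q03 := cF ![0, 3, 3, 3, 3] ![0, 1, 1, 1, 1] (by decide) (by decide) (by decide) 1 0
  have q04 := cF ![0, 4, 4, 4, 4] ![0, 1, 1, 1, 1] (by decide) (by decide) (by decide) 1 0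
  have q13 := cF ![1, 3, 3, 3, 3] ![0, 1, 1, 1, 1] (by decide) (by decide) (by decide) 1 0
  have q14 := cF ![1, 4, 4, 4, 4] ![0, 1, 1, 1, 1] (by decide) (by decide) (by decide) 1 0
  have q34 := cF ![3, 4, 4, 4, 4] ![0, 1, 1, 1, 1] (by decide) (by decide) (by decide) 1 0
  change F 0 < c 0 ↔ F 1 < c 1 at s0
  change F 3 < c 3 ↔ F 1 < c 1 at s3
  change F 4 < c 4 ↔ F 1 < c 1 at s4
  change F 0 < F 3 ↔ F 0 < F 1 at p03
  change F 0 < F 4 ↔ F 0 < F 1 at p04
  change F 1 < F 3 ↔ F 0 < F 1 at p13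
  change F 1 < F 4 ↔ F 0 < F 1 at p14
  change F 3 < F 4 ↔ F 0 < F 1 at p34
  change F 3 < F 0 ↔ F 1 < F 0 at q03
  change F 4 < F 0 ↔ F 1 < F 0 at q04
  change F 3 < F 1 ↔ F 1 < F 0 at q13
  change F 4 < F 1 ↔ F 1 < F 0 at q14
  change F 4 < F 3 ↔ F 1 < F 0 at q34
  have hOT : ∀ j j' : Fin 5, 0 < j → j < 4 → 0 < j' → j' < 4 → OT (Zf j) (Zf j') := by decide
  have hcI : IntVal y c := by
    intro j j' a1 a2 a3 a4
    exact hQc (Zf j) (Zf j') (hOT j j' a1 a2 a3 a4) 1
  by_cases hA : F 1 < c 1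
  · rcases lt_trichotomy (F 0) (F 1) with hlt | heq | hgt
    · -- increasing
      right
      have f03 : F 0 < F 3 := p03.2 hlt
      have f04 : F 0 < F 4 := p04.2 hlt
      have f13 : F 1 < F 3 := p13.2 hlt
      have f14 : F 1 < F 4 := p14.2 hlt
      have f34 : F 3 < F 4 := p34.2 hlt
      clear p03 p04 p13 p14 p34 q03 q04 q13 q14 q34 s0 s3 s4 kb
      have t1 := cG ![0, 1, 3, 3, 3] ![2, 3, 4, 4, 4] (by decide) 0 1 1 2
      have t2 := cG ![0, 1, 3, 3, 3] ![2, 3, 4, 4, 4] (by decide) 0 1 0 2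
      have t3 := cG ![0, 1, 3, 3, 3] ![2, 3, 4, 4, 4] (by decide) 0 2 0 1
      change G 0 1 < G 1 3 ↔ G 2 3 < G 3 4 at t1
      change G 0 1 < G 0 3 ↔ G 2 3 < G 2 4 at t2
      change G 0 3 < G 0 1 ↔ G 2 4 < G 2 3 at t3
      have a01 := T1 0 1
      have b01 := T2 0 1
      have a03 := T1 0 3
      have b03 := T2 0 3
      have a13 := T1 1 3
      have b13 := T2 1 3
      have a14 := T1 1 4
      have b14 := T2 1 4
      have a34 := T1 3 4
      have b34 := T2 3 4
      have a23 := T1 2 3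
      have b23 := T2 2 3
      have k1 : F 1 = G 1 4 := by omega
      have k3 : F 3 = G 3 4 := by omega
      have k2 : F 2 = G 2 4 := by omega
      intro j j' a1 a2 a3 a4
      have h3 := hQG (Zf j) (Zf j') (hOT j j' a1 a2 a3 a4) 1 2
      have h4 : ∀ j : Fin 5, 0 < j → j < 4 → F j = G j 4 := by
        intro j b1 b2
        have h5 : ∀ j : Fin 5, 0 < j → j < 4 → j = 1 ∨ j = 2 ∨ j = 3 := by decide
        rcases h5 j b1 b2 with rfl | rfl | rfl
        · exact k1
        · exact k2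
        · exact k3
      show Q _ _ (F j) (F j')
      rw [h4 j a1 a2, h4 j' a3 a4]
      exact h3
    · -- constant
      left
      have f13 : F 3 = F 1 := by
        have u1 : ¬ F 1 < F 3 := fun h => by
          have := p13.1 h
          omega
        have u2 : ¬ F 3 < F 1 := fun h => by
          have := q13.1 h
          omega
        omega
      have k13 : F 1 < κ → F 1 < G 1 3 := fun h5 => kb 1 3 f13 h5 hA (s3.2 hA)
      clear p03 p04 p13 p14 p34 q03 q04 q13 q14 q34 s0 s3 s4 kb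
      have t1 := cG ![1, 2, 3, 3, 3] ![0, 1, 2, 2, 2] (by decide) 0 1 1 2
      have t2 := cG ![1, 2, 3, 3, 3] ![0, 1, 2, 2, 2] (by decide) 1 2 0 1
      have t3 := cG ![1, 2, 3, 3, 3] ![0, 1, 2, 2, 2] (by decide) 0 1 0 2
      have t4 := cG ![1, 2, 3, 3, 3] ![0, 2, 3, 3, 3] (by decide) 0 1 1 2
      have t5 := cG ![1, 2, 3, 3, 3] ![0, 2, 3, 3, 3] (by decide) 1 2 0 1
      change G 1 2 < G 2 3 ↔ G 0 1 < G 1 2 at t1
      change G 2 3 < G 1 2 ↔ G 1 2 < G 0 1 at t2
      change G 1 2 < G 1 3 ↔ G 0 1 < G 0 2 at t3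
      change G 1 2 < G 2 3 ↔ G 0 2 < G 2 3 at t4
      change G 2 3 < G 1 2 ↔ G 2 3 < G 0 2 at t5
      have a13 := T1 1 3
      have c1 := T3 1 2 3
      have c2 := T3 2 1 3
      have c3 := T3 1 3 2
      rw [Gs 2 1] at c2
      rw [Gs 3 2] at c3
      have a12 := T1 1 2
      have b12 := T2 1 2
      have b21 := T2 2 1
      rw [Gs 2 1] at b21
      have a23 := T1 2 3
      have b23 := T2 2 3
      have b32 := T2 3 2
      rw [Gs 3 2] at b32
      have d1 := Fk 1
      have d2 := Fk 2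
      show F 1 = F 2 ∧ F 2 = F 3
      rcases Nat.lt_or_ge (F 1) κ with h5 | h5
      · have h6 := k13 h5
        omega
      · omega
    · -- decreasing
      right
      have f03 : F 3 < F 0 := q03.2 hgt
      have f04 : F 4 < F 0 := q04.2 hgt
      have f13 : F 3 < F 1 := q13.2 hgt
      have f14 : F 4 < F 1 := q14.2 hgt
      have f34 : F 4 < F 3 := q34.2 hgt
      clear p03 p04 p13 p14 p34 q03 q04 q13 q14 q34 s0 s3 s4 kb
      have t1 := cG ![0, 1, 3, 3, 3] ![0, 1, 2, 2, 2] (by decide) 0 2 0 1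
      have t2 := cG ![0, 1, 3, 3, 3] ![0, 1, 2, 2, 2] (by decide) 0 2 1 2
      have t3 := cG ![0, 1, 3, 3, 3] ![0, 1, 2, 2, 2] (by decide) 1 2 0 2
      change G 0 3 < G 0 1 ↔ G 0 2 < G 0 1 at t1
      change G 0 3 < G 1 3 ↔ G 0 2 < G 1 2 at t2
      change G 1 3 < G 0 3 ↔ G 1 2 < G 0 2 at t3
      have a01 := T1 0 1
      have b01 := T2 1 0
      rw [Gs 1 0] at b01
      have a03 := T1 0 3
      have b03 := T2 3 0
      rw [Gs 3 0] at b03
      have a13 := T1 1 3
      have b13 := T2 3 1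
      rw [Gs 3 1] at b13
      have a12 := T1 1 2
      have b12 := T2 1 2
      have b21 := T2 2 1
      rw [Gs 2 1] at b21
      have k1 : F 1 = G 0 1 := by omega
      have k3 : F 3 = G 0 3 := by omega
      have k2 : F 2 = G 0 2 := by omega
      intro j j' a1 a2 a3 a4
      have h3 := hQG (Zf j) (Zf j') (hOT j j' a1 a2 a3 a4) 0 1
      have h4 : ∀ j : Fin 5, 0 < j → j < 4 → F j = G 0 j := by
        intro j b1 b2
        have h5 : ∀ j : Fin 5, 0 < j → j < 4 → j = 1 ∨ j = 2 ∨ j = 3 := by decide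
        rcases h5 j b1 b2 with rfl | rfl | rfl
        · exact k1
        · exact k2
        · exact k3
      show Q _ _ (F j) (F j')
      rw [h4 j a1 a2, h4 j' a3 a4]
      exact h3
  · -- `F = c`
    right
    have hA3 : ¬ F 3 < c 3 := fun h => hA (s3.1 h)
    clear p03 p04 p13 p14 p34 q03 q04 q13 q14 q34 s0 s3 s4 kb
    have t1 := cGc ![1, 3, 3, 3, 3] ![1, 2, 2, 2, 2] (by decide) 0 1 0
    have t2 := cGc ![1, 3, 3, 3, 3] ![1, 2, 2, 2, 2] (by decide) 0 1 1
    have t3 := cGc ![1, 3, 3, 3, 3] ![2, 3, 3, 3, 3] (by decide) 0 1 0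
    have t4 := cGc ![1, 3, 3, 3, 3] ![2, 3, 3, 3, 3] (by decide) 0 1 1
    change G 1 3 < c 1 ↔ G 1 2 < c 1 at t1
    change G 1 3 < c 3 ↔ G 1 2 < c 2 at t2
    change G 1 3 < c 1 ↔ G 2 3 < c 2 at t3
    change G 1 3 < c 3 ↔ G 2 3 < c 3 at t4
    have m := hcI.mono hK h1
    have a1 := Fc 1
    have a2 := Fc 2
    have a3 := Fc 3
    have a13 := T1 1 3
    have g1 := Gc 1 2
    have g2 := Gc' 1 2
    have g3 := Gc 2 3
    have g4 := Gc' 2 3
    have b1 := T2 2 1
    rw [Gs 2 1] at b1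
    have b2 := T2 2 3
    have k1 : F 1 = c 1 := by omega
    have k3 : F 3 = c 3 := by omega
    have k2 : F 2 = c 2 := by omega
    intro j j' a1 a2 a3 a4
    have h3 := hQc (Zf j) (Zf j') (hOT j j' a1 a2 a3 a4) 1
    have h4 : ∀ j : Fin 5, 0 < j → j < 4 → F j = c j := by
      intro j b1 b2
      have h5 : ∀ j : Fin 5, 0 < j → j < 4 → j = 1 ∨ j = 2 ∨ j = 3 := by decide
      rcases h5 j b1 b2 with rfl | rfl | rfl
      · exact k1
      · exact k2
      · exact k3
    show Q _ _ (F j) (F j')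
    rw [h4 j a1 a2, h4 j' a3 a4]
    exact h3

end

end Pool.Agent.Helper59.DF
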