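import Pool.Agent.Helper59.DF.DistCore

/-!
# Distality in the standard model
-/

set_option autoImplicit false
set_option linter.unusedSectionVars false
set_option linter.unusedVariables false

namespace Pool.Agent.Helper59.DF

variable {ρ β : Type} [Fintype ρ] [Fintype β] {K : ℕ} {y : Fin 5 → ρ → Pt} {a : β → Pt}

theorem OT_Zf : ∀ j j' : Fin 5, 0 < j → j < 4 → 0 < j' → j' < 4 → OT (Zf j) (Zf j') := by decide

theorem distM (hK : 1 ≤ K) (h1 : ∀ f g, OT f g → Sim K (Y y f) (Y y g))
    (h2 : ∀ f g, OT f g → (∀ i, f i ≠ 2) → (∀ i, g i ≠ 2) →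
      Sim K (Sum.elim (Y y f) a) (Sum.elim (Y y g) a)) :
    Sim K (Sum.elim (y 2) a) (Sum.elim (y 1) a) := by
  have hS : ∀ i j : Fin 5, i ≠ 2 → j ≠ 2 → Sim K (Sum.elim (y i) a) (Sum.elim (y j) a) := by
    intro i j hi hj
    have h3 := (h2 (fun _ => i) (fun _ => j) (fun _ _ => by simp) (fun _ => hi) (fun _ => hj)).comp
      hK (Sum.map (fun r => ((0 : Fin 5), r)) id : ρ ⊕ β → (Fin 5 × ρ) ⊕ β)
    have h4 : ∀ i : Fin 5, (fun b => Sum.elim (Y y (fun _ => i)) a
        ((Sum.map (fun r => ((0 : Fin 5), r)) id : ρ ⊕ β → (Fin 5 × ρ) ⊕ β) b)) =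
        Sum.elim (y i) a := by
      intro i
      funext b
      rcases b with b | b <;> rfl
    rw [h4, h4] at h3
    exact h3
  have hside : ∀ i, (Sum.elim (y 2) a i).side = (Sum.elim (y 1) a i).side := by
    rintro (r | b)
    · exact (h1 (fun _ => 2) (fun _ => 1) (by decide)).1 (0, r)
    · rfl
  have gl : ∀ i, Good y (fun j => (Sum.elim (y j) a i).lev) := by
    rintro (r | b)
    · right
      intro j j' a1 a2 a3 a4
      exact Q_lev (Y y (Zf j)) (Y y (Zf j')) (1, r)
    · exact Or.inl ⟨rfl, rfl⟩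
  have hle : ∀ i i', (Sum.elim (y 2) a i).lev ≤ (Sum.elim (y 2) a i').lev ↔
      (Sum.elim (y 1) a i).lev ≤ (Sum.elim (y 1) a i').lev := by
    intro i i'
    have h3 := good_close hK h1 (gl i) (gl i')
      ((hS 1 3 (by decide) (by decide)).2 (some (.inl i)) (some (.inl i')))
    omega
  have hlev : ∀ i i', (Sum.elim (y 2) a i).lev = (Sum.elim (y 2) a i').lev ↔
      (Sum.elim (y 1) a i).lev = (Sum.elim (y 1) a i').lev := by
    intro i i'
    have h3 := hle i i'
    have h4 := hle i' i
    omega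
  have gW : ∀ e, Good y (fun j => W (Sum.elim (y j) a) e) := by
    intro e
    obtain ⟨e1, e2, rfl⟩ : ∃ (e1 : ρ → ZMod 2) (e2 : β → ZMod 2), e = Sum.elim e1 e2 :=
      ⟨e ∘ Sum.inl, e ∘ Sum.inr, (Sum.elim_comp_inl_inr e).symm⟩
    by_cases he2 : e2 = 0
    · subst he2
      right
      intro j j' a1 a2 a3 a4
      show Q _ _ (W (Sum.elim (y j) a) (Sum.elim e1 0)) (W (Sum.elim (y j') a) (Sum.elim e1 0))
      rw [W_elim_left, W_elim_left]
      exact Q_comp hK (h1 _ _ (OT_Zf j j' a1 a2 a3 a4)) (fun r : ρ => ((1 : Fin 5), r))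
        (Q_W (y j) (y j') e1)
    · by_cases he1 : e1 = 0
      · subst he1
        left
        show W (Sum.elim (y 1) a) (Sum.elim 0 e2) = W (Sum.elim (y 2) a) (Sum.elim 0 e2) ∧
          W (Sum.elim (y 2) a) (Sum.elim 0 e2) = W (Sum.elim (y 3) a) (Sum.elim 0 e2)
        rw [W_elim_right, W_elim_right, W_elim_right]
        exact ⟨rfl, rfl⟩
      · by_cases hb : Bal (Sum.elim (y 1) a) (Sum.elim e1 e2)
        · have hB : ∀ j, Bal (Sum.elim (y j) a) (Sum.elim e1 e2) := by
            intro j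
            by_cases hj : j = 2
            · subst hj
              exact hb.congr (fun i i' => (hlev i i').symm) (fun i => (hside i).symm)
            · exact (hS 1 j (by decide) hj).bal hK hb
          have h3 := good_meet hK h1 h2 he1 he2 hB
          have h4 : (fun j => W (Sum.elim (y j) a) (Sum.elim e1 e2)) =
              fun j => meet (node (y j) e1) (node a e2) := by
            funext j
            exact W_elim (y j) a he1 he2 (hB j)
          rw [h4]
          exact h3
        · left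
          have hb2 : ¬ Bal (Sum.elim (y 2) a) (Sum.elim e1 e2) := fun h => hb (h.congr hlev hside)
          have hb3 : ¬ Bal (Sum.elim (y 3) a) (Sum.elim e1 e2) := fun h =>
            hb ((hS 3 1 (by decide) (by decide)).bal hK h)
          show W (Sum.elim (y 1) a) (Sum.elim e1 e2) = W (Sum.elim (y 2) a) (Sum.elim e1 e2) ∧
            W (Sum.elim (y 2) a) (Sum.elim e1 e2) = W (Sum.elim (y 3) a) (Sum.elim e1 e2)
          rw [W_of_not_bal hb, W_of_not_bal hb2, W_of_not_bal hb3]
          exact ⟨rfl, rfl⟩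
  have gp : ∀ p, Good y (fun j => val (Sum.elim (y j) a) p) := by
    rintro (_ | i | e)
    · exact Or.inl ⟨rfl, rfl⟩
    · exact gl i
    · exact gW e
  exact ⟨hside, fun p q => good_close hK h1 (gp p) (gp q) ((hS 1 3 (by decide) (by decide)).2 p q)⟩

end Pool.Agent.Helper59.DF
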