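import Pool.Agent.Helper59.DF.Lang

/-!
# Transfer of finite configurations from elementary extensions
-/

set_option autoImplicit false
set_option linter.unusedSectionVars false
set_option linter.unusedVariables false

open FirstOrder FirstOrder.Language

namespace Pool.Agent.Helper59.DF

section general

variable {L : FirstOrder.Language.{0, 0}} {M N : Type} [L.Structure M] [L.Structure N]

open Classical in
/-- literals true of `z` -/
noncomputable def lit {γ ι : Type} (F : ι → L.Formula γ) (z : γ → N) (i : ι) : L.Formula γ :=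
  if (F i).Realize z then F i else (F i).not

theorem realize_lit {γ ι : Type} (F : ι → L.Formula γ) (z : γ → N) (i : ι) (u : γ → M) :
    (lit F z i).Realize u ↔ ((F i).Realize u ↔ (F i).Realize z) := by
  unfold lit
  split_ifs with h
  · exact ⟨fun h1 => ⟨fun _ => h, fun _ => h1⟩, fun h1 => h1.2 h⟩
  · rw [Formula.realize_not]
    exact ⟨fun h1 => ⟨fun h2 => absurd h2 h1, fun h2 => absurd h2 h⟩, fun h1 h2 => h (h1.1 h2)⟩

/-- a finite tuple of an elementary extension can be replaced with a tuple of the small model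
that satisfies the same formulas of a finite family -/
theorem transfer (j : M ↪ₑ[L] N) {γ : Type} [Finite γ] (z : γ → N) {ι : Type} [Finite ι]
    (F : ι → L.Formula γ) : ∃ z' : γ → M, ∀ i, (F i).Realize z' ↔ (F i).Realize z := by
  let θ : L.Formula γ := Formula.iInf (lit F z)
  have hθ : θ.Realize z := by
    rw [Formula.realize_iInf]
    intro i
    rw [realize_lit]
  let χ : L.Formula Empty := Formula.iExs γ (θ.relabel (Sum.inr : γ → Empty ⊕ γ))
  have hN : χ.Realize (j ∘ (Empty.elim : Empty → M)) := by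
    rw [Formula.realize_iExs]
    refine ⟨z, ?_⟩
    rw [Formula.realize_relabel, Sum.elim_comp_inr]
    exact hθ
  rw [j.map_formula, Formula.realize_iExs] at hN
  obtain ⟨z', h⟩ := hN
  rw [Formula.realize_relabel, Sum.elim_comp_inr, Formula.realize_iInf] at h
  exact ⟨z', fun i => (realize_lit F z i z').1 (h i)⟩

/-- a formula depends on finitely many variables -/
theorem finite_vars {α : Type} (φ : L.Formula α) : ∃ (k : ℕ) (f : Fin k → α) (ψ : L.Formula (Fin k)),
    ∀ (K : Type) [L.Structure K] (v : α → K), ψ.Realize (fun i => v (f i)) ↔ φ.Realize v := by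
  classical
  refine ⟨(BoundedFormula.freeVarFinset φ).card,
    fun i => ((BoundedFormula.freeVarFinset φ).equivFin.symm i : α),
    BoundedFormula.restrictFreeVar φ ((BoundedFormula.freeVarFinset φ).equivFin), ?_⟩
  intro K _ v
  apply BoundedFormula.realize_restrictFreeVar
  intro a
  exact congrArg v (congrArg Subtype.val (_root_.Equiv.symm_apply_apply _ a))

end general

section inv

variable {α : Type} [Fintype α]

/-- the similarity class of a tuple as an element of a finite type -/
noncomputable def code (K : ℕ) (v : α → Pt) : (α → Bool) ×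
    (Option (α ⊕ (α → ZMod 2)) → Option (α ⊕ (α → ZMod 2)) → Fin (K + 1)) :=
  (fun i => (v i).side, fun p q => ⟨min (val v p - val v q) K, by omega⟩)

theorem sim_of_code {K : ℕ} {v w : α → Pt} (h : code K v = code K w) : Sim K v w := by
  refine ⟨fun i => congrFun (congrArg Prod.fst h) i, fun p q => ?_⟩
  have h1 := congrFun (congrFun (congrArg Prod.snd h) p) q
  exact congrArg Fin.val h1

instance finite_inv (K : ℕ) : Finite {ρ : Set (α → Pt) // Inv K ρ} := by
  have h0 : Finite (Set ((α → Bool) ×
      (Option (α ⊕ (α → ZMod 2)) → Option (α ⊕ (α → ZMod 2)) → Fin (K + 1)))) := inferInstance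
  refine Finite.of_injective (fun ρ : {ρ : Set (α → Pt) // Inv K ρ} => code K '' ρ.1) ?_
  rintro ⟨ρ, hρ⟩ ⟨ρ', hρ'⟩ h
  have key : ∀ {ρ ρ' : Set (α → Pt)}, Inv K ρ' → code K '' ρ = code K '' ρ' → ρ ⊆ ρ' := by
    intro ρ ρ' hρ' h v hv
    have h1 : code K v ∈ code K '' ρ' := h ▸ Set.mem_image_of_mem _ hv
    obtain ⟨w, hw, h2⟩ := h1
    exact (hρ' _ _ (sim_of_code h2)).1 hw
  exact Subtype.ext (Set.Subset.antisymm (key hρ' h) (key hρ h.symm))

/-- the similarity class of `v` -/
theorem inv_class (K : ℕ) (v : α → Pt) : Inv K {w | Sim K v w} :=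
  fun _ _ h => ⟨fun h1 => Sim.trans h1 h, fun h1 => Sim.trans h1 h.symm⟩

end inv

section types

variable {N : Type} [LD.Structure N] {α : Type} [Fintype α]

/-- the type of a tuple of `N`: the invariant relations it satisfies -/
def tpN {K : ℕ} (hK : 1 ≤ K) (z : α → N) : Set {ρ : Set (α → Pt) // Inv K ρ} :=
  {ρ | (relF ρ.1 ⟨K, hK, ρ.2⟩).Realize z}

theorem mem_tpN {K : ℕ} (hK : 1 ≤ K) (z : α → N) (ρ : {ρ : Set (α → Pt) // Inv K ρ}) :
    ρ ∈ tpN hK z ↔ (relF ρ.1 ⟨K, hK, ρ.2⟩).Realize z := Iff.rfl

/-- tuples of the standard model with the same type are similar -/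
theorem sim_of_tp {K : ℕ} (hK : 1 ≤ K) {v w : α → Pt}
    (h : ∀ ρ : {ρ : Set (α → Pt) // Inv K ρ}, (relF ρ.1 ⟨K, hK, ρ.2⟩).Realize v ↔
      (relF ρ.1 ⟨K, hK, ρ.2⟩).Realize w) : Sim K v w := by
  have h1 := h ⟨{w | Sim K v w}, inv_class K v⟩
  rw [realize_relF, realize_relF] at h1
  exact h1.1 (Sim.refl K v)

end types

end Pool.Agent.Helper59.DF
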