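import Pool.Agent.Helper59.DF.DistM
import Pool.Agent.Helper59.DF.Transfer

/-!
# The structure is distal
-/

set_option autoImplicit false
set_option linter.unusedSectionVars false
set_option linter.unusedVariables false

open FirstOrder FirstOrder.Language

namespace Pool.Agent.Helper59.DF

section general

variable {L : FirstOrder.Language.{0, 0}} {N : Type} [L.Structure N] {I : Type} [LinearOrder I]
  {m : ℕ}

/-- in an indiscernible sequence, families of indices of the same order type give tuples with the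
same truth values -/
theorem Indisc.gen {A : Set N} {b : I → Fin m → N} (h : Indisc L A b) {κ : Type} [Finite κ]
    (s t : κ → I) (hst : ∀ x y, s x < s y ↔ t x < t y) (φ : L.Formula ((κ × Fin m) ⊕ A)) :
    φ.Realize (Sum.elim (fun q => b (s q.1) q.2) (fun a => (a : N))) ↔
      φ.Realize (Sum.elim (fun q => b (t q.1) q.2) (fun a => (a : N))) := by
  classical
  have : Fintype κ := Fintype.ofFinite κ
  let S : Finset I := Finset.univ.image s
  let e : Fin S.card ≃o S := S.orderIsoOfFin rfl
  have hmem : ∀ x, s x ∈ S := fun x => Finset.mem_image_of_mem s (Finset.mem_univ x)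
  let π : κ → Fin S.card := fun x => e.symm ⟨s x, hmem x⟩
  let s' : Fin S.card → I := fun i => (e i : I)
  have hs' : ∀ x, s' (π x) = s x := by
    intro x
    show ((e (e.symm ⟨s x, hmem x⟩) : S) : I) = s x
    rw [OrderIso.apply_symm_apply]
  have hrep : ∀ i : Fin S.card, ∃ x, s x = s' i := by
    intro i
    obtain ⟨x, _, hx⟩ := Finset.mem_image.1 (e i).2
    exact ⟨x, hx⟩
  choose x hx using hrep
  let t' : Fin S.card → I := fun i => t (x i)
  have hsm : StrictMono s' := fun i j hij => e.strictMono hij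
  have htm : StrictMono t' := by
    intro i j hij
    show t (x i) < t (x j)
    rw [← hst, hx, hx]
    exact hsm hij
  have ht' : ∀ u, t' (π u) = t u := by
    intro u
    have h1 : s (x (π u)) = s u := by rw [hx, hs']
    have h2 := hst (x (π u)) u
    have h3 := hst u (x (π u))
    rw [h1] at h2 h3
    rcases lt_trichotomy (t (x (π u))) (t u) with h4 | h4 | h4
    · exact absurd (h2.2 h4) (lt_irrefl _)
    · exact h4
    · exact absurd (h3.2 h4) (lt_irrefl _)
  have key := h S.card (φ.relabel (Sum.map (fun q : κ × Fin m => (π q.1, q.2)) id)) s' t' hsm htm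
  rw [Formula.realize_relabel, Formula.realize_relabel] at key
  have e1 : (Sum.elim (fun q : Fin S.card × Fin m => b (s' q.1) q.2) (fun a : A => (a : N))) ∘
      Sum.map (fun q : κ × Fin m => (π q.1, q.2)) id =
      Sum.elim (fun q : κ × Fin m => b (s q.1) q.2) (fun a : A => (a : N)) := by
    funext q
    rcases q with q | q
    · show b (s' (π q.1)) q.2 = b (s q.1) q.2
      rw [hs']
    · rfl
  have e2 : (Sum.elim (fun q : Fin S.card × Fin m => b (t' q.1) q.2) (fun a : A => (a : N))) ∘
      Sum.map (fun q : κ × Fin m => (π q.1, q.2)) id =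
      Sum.elim (fun q : κ × Fin m => b (t q.1) q.2) (fun a : A => (a : N)) := by
    funext q
    rcases q with q | q
    · show b (t' (π q.1)) q.2 = b (t q.1) q.2
      rw [ht']
    · rfl
  rw [e1, e2] at key
  exact key

/-- only finitely many parameters matter -/
theorem finite_params {γ A : Type} (φ : L.Formula (γ ⊕ A)) : ∃ (k : ℕ) (g : Fin k → A)
    (ψ : L.Formula (γ ⊕ Fin k)), ∀ (u : γ → N) (a : A → N),
      ψ.Realize (Sum.elim u (fun i => a (g i))) ↔ φ.Realize (Sum.elim u a) := by
  classical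
  obtain ⟨h, f, θ, hθ⟩ := finite_vars φ
  rcases isEmpty_or_nonempty A with hA | ⟨⟨a₀⟩⟩
  · refine ⟨0, fun i => i.elim0, θ.relabel (fun x => Sum.elim Sum.inl (fun a => hA.elim a) (f x)), ?_⟩
    intro u a
    rw [Formula.realize_relabel, ← hθ N]
    have : (Sum.elim u (fun i : Fin 0 => a (Fin.elim0 i))) ∘
        (fun x => Sum.elim Sum.inl (fun a => hA.elim a) (f x)) = fun i => Sum.elim u a (f i) := by
      funext x
      show Sum.elim u _ (Sum.elim Sum.inl _ (f x)) = _
      rcases f x with c | c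
      · rfl
      · exact hA.elim c
    rw [this]
  · refine ⟨h, fun x => Sum.elim (fun _ => a₀) id (f x),
      θ.relabel (fun x => Sum.elim (fun c => Sum.inl c) (fun _ => Sum.inr x) (f x)), ?_⟩
    intro u a
    rw [Formula.realize_relabel, ← hθ N]
    have : (Sum.elim u (fun i : Fin h => a (Sum.elim (fun _ => a₀) id (f i)))) ∘
        (fun x => Sum.elim (fun c => Sum.inl c) (fun _ => Sum.inr x) (f x)) =
        fun i => Sum.elim u a (f i) := by
      funext x
      show Sum.elim u _ (Sum.elim _ _ (f x)) = _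
      cases hfx : f x with
      | inl c => rfl
      | inr c =>
        show a (Sum.elim (fun _ => a₀) id (f x)) = a c
        rw [hfx]
        rfl
    rw [this]

/-- a point below `c` above finitely many points below `c` -/
theorem exists_near_lt [DenselyOrdered I] [NoMinOrder I] {r : ℕ} (s : Fin r → I) (c : I) :
    ∃ u, u < c ∧ ∀ k, s k < c → s k < u := by
  classical
  let S : Finset I := (Finset.univ.image s).filter (· < c)
  rcases S.eq_empty_or_nonempty with h | h
  · obtain ⟨u, hu⟩ := exists_lt c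
    refine ⟨u, hu, fun k hk => ?_⟩
    have : s k ∈ S := Finset.mem_filter.2 ⟨Finset.mem_image_of_mem s (Finset.mem_univ k), hk⟩
    rw [h] at this
    exact absurd this (Finset.notMem_empty _)
  · obtain ⟨u, hu1, hu2⟩ := exists_between (Finset.mem_filter.1 (S.max'_mem h)).2
    refine ⟨u, hu2, fun k hk => lt_of_le_of_lt (S.le_max' _ ?_) hu1⟩
    exact Finset.mem_filter.2 ⟨Finset.mem_image_of_mem s (Finset.mem_univ k), hk⟩

theorem exists_near_gt [DenselyOrdered I] [NoMaxOrder I] {r : ℕ} (s : Fin r → I) (c : I) :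
    ∃ u, c < u ∧ ∀ k, c < s k → u < s k := by
  classical
  let S : Finset I := (Finset.univ.image s).filter (c < ·)
  rcases S.eq_empty_or_nonempty with h | h
  · obtain ⟨u, hu⟩ := exists_gt c
    refine ⟨u, hu, fun k hk => ?_⟩
    have : s k ∈ S := Finset.mem_filter.2 ⟨Finset.mem_image_of_mem s (Finset.mem_univ k), hk⟩
    rw [h] at this
    exact absurd this (Finset.notMem_empty _)
  · obtain ⟨u, hu1, hu2⟩ := exists_between (Finset.mem_filter.1 (S.min'_mem h)).2
    refine ⟨u, hu1, fun k hk => lt_of_lt_of_le hu2 (S.min'_le _ ?_)⟩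
    exact Finset.mem_filter.2 ⟨Finset.mem_image_of_mem s (Finset.mem_univ k), hk⟩

end general

/-- replacing the index `c` with an index near `c` -/
theorem near {N : Type} [LD.Structure N] (jN : Pt ↪ₑ[LD] N) {I : Type} [LinearOrder I]
    [DenselyOrdered I] [NoMinOrder I] [NoMaxOrder I] (c : I) {m : ℕ} {b : I → Fin m → N}
    {A : Set N} (hb : Indisc LD ∅ b) (hA : Indisc LD A (fun i : {i : I // i ≠ c} => b i)) {r : ℕ}
    (φ : LD.Formula ((Fin r × Fin m) ⊕ A)) (s : Fin r → I) (hs : StrictMono s) (l : Fin r)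
    (hl : s l = c) : ∃ u, u ≠ c ∧ StrictMono (fun k => if k = l then u else s k) ∧
      (φ.Realize (Sum.elim (fun q => b (s q.1) q.2) (fun a => (a : N))) ↔
        φ.Realize (Sum.elim (fun q => b (if q.1 = l then u else s q.1) q.2)
          (fun a => (a : N)))) := by
  classical
  obtain ⟨i0, h0c, h0⟩ := exists_near_lt s c
  obtain ⟨i4, hc4, h4⟩ := exists_near_gt s c
  obtain ⟨i1, h01, h1c⟩ := exists_between h0c
  obtain ⟨i3, hc3, h34⟩ := exists_between hc4
  let P : Fin 5 → I := ![i0, i1, c, i3, i4]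
  have hP : StrictMono P := by
    rw [Fin.strictMono_iff_lt_succ]
    intro i
    fin_cases i
    · exact h01
    · exact h1c
    · exact hc3
    · exact h34
  have hP0 : ∀ t, i0 ≤ P t := fun t => hP.monotone (Fin.zero_le t)
  have hP4 : ∀ t, P t ≤ i4 := fun t => hP.monotone (Fin.le_last t)
  have hPc : ∀ t, t ≠ 2 → P t ≠ c := fun t ht h => ht (hP.injective h)
  have hsl : ∀ k, k < l → ∀ t, s k < P t := fun k hk t =>
    lt_of_lt_of_le (h0 k (hl ▸ hs hk)) (hP0 t)
  have hsg : ∀ k, l < k → ∀ t, P t < s k := fun k hk t =>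
    lt_of_le_of_lt (hP4 t) (h4 k (hl ▸ hs hk))
  have hsc : ∀ k, k ≠ l → s k ≠ c := fun k hk h => hk (hs.injective (h.trans hl.symm))
  -- the composed index maps
  let D : (Fin 5 → Fin 5) → Fin 5 × Fin r → I := fun f q => if q.2 = l then P (f q.1) else s q.2
  have hD : ∀ f g, OT f g → ∀ x y, D f x < D f y → D g x < D g y := by
    rintro f g hfg ⟨t, k⟩ ⟨t', k'⟩
    show (if k = l then P (f t) else s k) < (if k' = l then P (f t') else s k') →
      (if k = l then P (g t) else s k) < (if k' = l then P (g t') else s k')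
    by_cases hk : k = l
    · by_cases hk' : k' = l
      · rw [if_pos hk, if_pos hk', if_pos hk, if_pos hk', hP.lt_iff_lt, hP.lt_iff_lt]
        exact (hfg t t').1
      · rw [if_pos hk, if_neg hk', if_pos hk, if_neg hk']
        intro h
        rcases lt_trichotomy k' l with h5 | h5 | h5
        · exact absurd h (lt_asymm (hsl k' h5 _))
        · exact absurd h5 hk'
        · exact hsg k' h5 _
    · by_cases hk' : k' = l
      · rw [if_neg hk, if_pos hk', if_neg hk, if_pos hk']
        intro h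
        rcases lt_trichotomy k l with h5 | h5 | h5
        · exact hsl k h5 _
        · exact absurd h5 hk
        · exact absurd h (lt_asymm (hsg k h5 _))
      · rw [if_neg hk, if_neg hk', if_neg hk, if_neg hk']
        exact fun h => h
  have hOTs : ∀ f g, OT f g → OT g f := fun f g h x y => (h x y).symm
  obtain ⟨k, gA, ψ, hψ⟩ := finite_params (N := N) φ
  obtain ⟨K, hK, hinv⟩ := qe ψ
  let yN : Fin 5 → Fin r × Fin m → N := fun t q => b (if q.1 = l then P t else s q.1) q.2
  let aN : Fin k → N := fun x => (gA x : N)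
  let YN : (Fin 5 → Fin 5) → Fin 5 × (Fin r × Fin m) → N := fun f q => yN (f q.1) q.2
  have hYN : ∀ f g, OT f g → ∀ θ : LD.Formula (Fin 5 × (Fin r × Fin m)),
      θ.Realize (YN f) ↔ θ.Realize (YN g) := by
    intro f g hfg θ
    have h5 := hb.gen (D f) (D g) (fun x y => ⟨hD f g hfg x y, hD g f (hOTs f g hfg) x y⟩)
      (θ.relabel (fun q => Sum.inl ((q.1, q.2.1), q.2.2)))
    rw [Formula.realize_relabel, Formula.realize_relabel] at h5
    exact h5
  have hYA : ∀ f g, OT f g → (∀ i, f i ≠ 2) → (∀ i, g i ≠ 2) →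
      ∀ θ : LD.Formula ((Fin 5 × (Fin r × Fin m)) ⊕ Fin k),
      θ.Realize (Sum.elim (YN f) aN) ↔ θ.Realize (Sum.elim (YN g) aN) := by
    intro f g hfg hf hg θ
    have hDc : ∀ f : Fin 5 → Fin 5, (∀ i, f i ≠ 2) → ∀ q, D f q ≠ c := by
      rintro f hf ⟨t, k⟩
      show (if k = l then P (f t) else s k) ≠ c
      by_cases hk : k = l
      · rw [if_pos hk]
        exact hPc _ (hf t)
      · rw [if_neg hk]
        exact hsc k hk
    have h5 := hA.gen (fun q => (⟨D f q, hDc f hf q⟩ : {i : I // i ≠ c}))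
      (fun q => (⟨D g q, hDc g hg q⟩ : {i : I // i ≠ c}))
      (fun x y => ⟨hD f g hfg x y, hD g f (hOTs f g hfg) x y⟩)
      (θ.relabel (Sum.elim (fun q => Sum.inl ((q.1, q.2.1), q.2.2)) (fun x => Sum.inr (gA x))))
    rw [Formula.realize_relabel, Formula.realize_relabel] at h5
    have e1 : ∀ (f : Fin 5 → Fin 5) (hf : ∀ i, f i ≠ 2),
        (Sum.elim (fun q => b (⟨D f q.1, hDc f hf q.1⟩ : {i : I // i ≠ c}) q.2)
          (fun a => (a : N)) : ((Fin 5 × Fin r) × Fin m) ⊕ A → N) ∘
        (Sum.elim (fun q => Sum.inl ((q.1, q.2.1), q.2.2)) (fun x => Sum.inr (gA x)) :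
          (Fin 5 × (Fin r × Fin m)) ⊕ Fin k → ((Fin 5 × Fin r) × Fin m) ⊕ A) =
        Sum.elim (YN f) aN := by
      intro f hf
      funext q
      rcases q with q | q <;> rfl
    rw [e1 f hf, e1 g hg] at h5
    exact h5
  -- transfer
  let γ : Type := (Fin 5 × (Fin r × Fin m)) ⊕ Fin k
  let z : γ → N := Sum.elim (YN id) aN
  let ι : Type := (((Fin 5 → Fin 5) × {R : Set (Fin 5 × (Fin r × Fin m) → Pt) // Inv K R}) ⊕
    ((Fin 5 → Fin 5) × {R : Set ((Fin 5 × (Fin r × Fin m)) ⊕ Fin k → Pt) // Inv K R})) ⊕ Fin 5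
  have : Finite ι := by
    have h1 : Finite {R : Set (Fin 5 × (Fin r × Fin m) → Pt) // Inv K R} := finite_inv K
    have h2 : Finite {R : Set ((Fin 5 × (Fin r × Fin m)) ⊕ Fin k → Pt) // Inv K R} := finite_inv K
    infer_instance
  let F : ι → LD.Formula γ := Sum.elim
    (Sum.elim
      (fun t => (relF t.2.1 ⟨K, hK, t.2.2⟩).relabel (fun q => Sum.inl (t.1 q.1, q.2)))
      (fun t => (relF t.2.1 ⟨K, hK, t.2.2⟩).relabel (Sum.map (fun q => (t.1 q.1, q.2)) id)))
    (fun t => ψ.relabel (Sum.map (fun q => (t, q)) id))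
  obtain ⟨z', hz'⟩ := transfer jN z F
  let y : Fin 5 → Fin r × Fin m → Pt := fun t q => z' (.inl (t, q))
  let a : Fin k → Pt := fun x => z' (.inr x)
  have e1 : ∀ (f : Fin 5 → Fin 5) (R : {R : Set (Fin 5 × (Fin r × Fin m) → Pt) // Inv K R}),
      (relF R.1 ⟨K, hK, R.2⟩).Realize (Y y f) ↔ (relF R.1 ⟨K, hK, R.2⟩).Realize (YN f) := by
    intro f R
    have h5 : ((relF R.1 ⟨K, hK, R.2⟩).relabel
        (fun q => Sum.inl (f q.1, q.2) : Fin 5 × (Fin r × Fin m) → γ)).Realize z' ↔
        ((relF R.1 ⟨K, hK, R.2⟩).relabel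
        (fun q => Sum.inl (f q.1, q.2) : Fin 5 × (Fin r × Fin m) → γ)).Realize z :=
      hz' (.inl (.inl (f, R)))
    rw [Formula.realize_relabel, Formula.realize_relabel] at h5
    exact h5
  have e2 : ∀ (f : Fin 5 → Fin 5)
      (R : {R : Set ((Fin 5 × (Fin r × Fin m)) ⊕ Fin k → Pt) // Inv K R}),
      (relF R.1 ⟨K, hK, R.2⟩).Realize (Sum.elim (Y y f) a) ↔
        (relF R.1 ⟨K, hK, R.2⟩).Realize (Sum.elim (YN f) aN) := by
    intro f R
    have h5 : ((relF R.1 ⟨K, hK, R.2⟩).relabel
        (Sum.map (fun q => (f q.1, q.2)) id : (Fin 5 × (Fin r × Fin m)) ⊕ Fin k → γ)).Realize z' ↔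
        ((relF R.1 ⟨K, hK, R.2⟩).relabel
        (Sum.map (fun q => (f q.1, q.2)) id : (Fin 5 × (Fin r × Fin m)) ⊕ Fin k → γ)).Realize z :=
      hz' (.inl (.inr (f, R)))
    rw [Formula.realize_relabel, Formula.realize_relabel] at h5
    have h6 : z' ∘ (Sum.map (fun q => (f q.1, q.2)) id :
        (Fin 5 × (Fin r × Fin m)) ⊕ Fin k → γ) = Sum.elim (Y y f) a := by
      funext q
      rcases q with q | q <;> rfl
    have h7 : z ∘ (Sum.map (fun q => (f q.1, q.2)) id :
        (Fin 5 × (Fin r × Fin m)) ⊕ Fin k → γ) = Sum.elim (YN f) aN := by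
      funext q
      rcases q with q | q <;> rfl
    rw [h6, h7] at h5
    exact h5
  have e3 : ∀ t : Fin 5, ψ.Realize (Sum.elim (y t) a) ↔ ψ.Realize (Sum.elim (yN t) aN) := by
    intro t
    have h5 : (ψ.relabel
        (Sum.map (fun q => (t, q)) id : (Fin r × Fin m) ⊕ Fin k → γ)).Realize z' ↔
        (ψ.relabel (Sum.map (fun q => (t, q)) id : (Fin r × Fin m) ⊕ Fin k → γ)).Realize z :=
      hz' (.inr t)
    rw [Formula.realize_relabel, Formula.realize_relabel] at h5
    have h6 : z' ∘ (Sum.map (fun q => (t, q)) id : (Fin r × Fin m) ⊕ Fin k → γ) =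
        Sum.elim (y t) a := by
      funext q
      rcases q with q | q <;> rfl
    have h7 : z ∘ (Sum.map (fun q => (t, q)) id : (Fin r × Fin m) ⊕ Fin k → γ) =
        Sum.elim (yN t) aN := by
      funext q
      rcases q with q | q <;> rfl
    rw [h6, h7] at h5
    exact h5
  have hsim := distM hK (y := y) (a := a)
    (fun f g hfg => sim_of_tp hK fun R => by
      rw [e1 f R, e1 g R]
      exact hYN f g hfg _)
    (fun f g hfg hf hg => sim_of_tp hK fun R => by
      rw [e2 f R, e2 g R]
      exact hYA f g hfg hf hg _)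
  have h5 : ψ.Realize (Sum.elim (y 2) a) ↔ ψ.Realize (Sum.elim (y 1) a) := hinv _ _ hsim
  rw [e3, e3] at h5
  refine ⟨i1, h1c.ne, ?_, ?_⟩
  · intro k k' hkk
    show (if k = l then i1 else s k) < (if k' = l then i1 else s k')
    by_cases hk : k = l
    · have hk' : k' ≠ l := by
        rintro rfl
        exact absurd hkk (by rw [hk]; exact lt_irrefl _)
      rw [if_pos hk, if_neg hk']
      exact hsg k' (hk ▸ hkk) 1
    · by_cases hk' : k' = l
      · rw [if_neg hk, if_pos hk']
        exact hsl k (hk' ▸ hkk) 1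
      · rw [if_neg hk, if_neg hk']
        exact hs hkk
  · rw [← hψ, ← hψ]
    have h6 : (fun q : Fin r × Fin m => b (s q.1) q.2) = yN 2 := by
      funext q
      show b (s q.1) q.2 = b (if q.1 = l then c else s q.1) q.2
      by_cases hq : q.1 = l
      · rw [if_pos hq, hq, hl]
      · rw [if_neg hq]
    rw [h6]
    exact h5

theorem isDistal : IsDistal LD Pt := by
  classical
  intro N _ jN I _ _ _ _ c m b A hb hA r φ s t hs ht
  have key : ∀ s : Fin r → I, StrictMono s → ∃ s' : Fin r → {i : I // i ≠ c}, StrictMono s' ∧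
      (φ.Realize (Sum.elim (fun q => b (s q.1) q.2) (fun a => (a : N))) ↔
        φ.Realize (Sum.elim (fun q => b (s' q.1 : I) q.2) (fun a => (a : N)))) := by
    intro s hs
    by_cases h : ∃ l, s l = c
    · obtain ⟨l, hl⟩ := h
      obtain ⟨u, hu, hmono, hiff⟩ := near jN c hb hA φ s hs l hl
      refine ⟨fun k => ⟨if k = l then u else s k, ?_⟩, fun k k' hk => hmono hk, hiff⟩
      by_cases hk : k = l
      · rw [if_pos hk]
        exact hu
      · rw [if_neg hk]
        intro h
        exact hk (hs.injective (h.trans hl.symm))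
    · push Not at h
      exact ⟨fun k => ⟨s k, h k⟩, fun k k' hk => hs hk, Iff.rfl⟩
  obtain ⟨s', hs', h1⟩ := key s hs
  obtain ⟨t', ht', h2⟩ := key t ht
  rw [h1, h2]
  exact hA r φ s' t' hs' ht'

end Pool.Agent.Helper59.DF
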