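import Pool.Agent.Helper59.DF.Transfer
import Pool.Agent.Helper59.DF.Classes

/-!
# The structure is dp-minimal
-/

set_option autoImplicit false
set_option linter.unusedSectionVars false
set_option linter.unusedVariables false

open FirstOrder FirstOrder.Language

namespace Pool.Agent.Helper59.DF

/-- three points with the same colour -/
theorem three_same {E : Type} [Finite E] : ∃ n : ℕ, ∀ f : Fin n → E,
    ∃ g : Fin 3 → Fin n, Function.Injective g ∧ ∀ p q, f (g p) = f (g q) := by
  classical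
  have : Fintype E := Fintype.ofFinite E
  refine ⟨Fintype.card E * 2 + 1, fun f => ?_⟩
  obtain ⟨y, hy⟩ := Fintype.exists_lt_card_fiber_of_mul_lt_card (f := f) (n := 2)
    (by rw [Fintype.card_fin]; omega)
  rw [Finset.two_lt_card] at hy
  obtain ⟨a, ha, b, hb, c, hc, hab, hac, hbc⟩ := hy
  simp only [Finset.mem_filter, Finset.mem_univ, true_and] at ha hb hc
  refine ⟨![a, b, c], ?_, ?_⟩
  · intro p q hpq
    fin_cases p <;> fin_cases q <;> simp_all
  · intro p q
    fin_cases p <;> fin_cases q <;> simp_all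

/-- pigeonhole in a grid -/
theorem grid3 {D D' : Type} [Finite D] [Finite D'] (r : ℕ → ℕ → D) (s : ℕ → ℕ → D') :
    ∃ i j : Fin 3 → ℕ, Function.Injective i ∧ Function.Injective j ∧
      (∀ p q q', r (i p) (j q) = r (i p) (j q')) ∧
      (∀ p p' q, s (i p) (j q) = s (i p') (j q)) := by
  classical
  obtain ⟨n, hn⟩ := three_same (E := D')
  obtain ⟨m, hm⟩ := three_same (E := Fin n → D × D')
  obtain ⟨g, hg, hg'⟩ := hm (fun j : Fin m => fun i : Fin n => (r i j, s i j))
  obtain ⟨h, hh, hh'⟩ := hn (fun i : Fin n => s i (g 0))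
  refine ⟨fun p => h p, fun q => g q, fun p q hpq => hh (Fin.ext hpq),
    fun p q hpq => hg (Fin.ext hpq), ?_, ?_⟩
  · intro p q q'
    exact congrArg Prod.fst (congrFun (hg' q q') (h p))
  · intro p p' q
    have h1 : ∀ p, s (h p) (g q) = s (h p) (g 0) := fun p =>
      congrArg Prod.snd (congrFun (hg' q 0) (h p))
    show s (h p) (g q) = s (h p') (g q)
    rw [h1 p, h1 p']
    exact hh' p p'

theorem isDpMinimal : IsDpMinimal LD Pt := by
  classical
  intro N _ jN k l φ ψ a c hpat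
  choose x hx using hpat
  obtain ⟨K1, hK1, hφ⟩ := qe φ
  obtain ⟨K2, hK2, hψ⟩ := qe ψ
  set K := max K1 K2 with hKdef
  have hK : 1 ≤ K := hK1.trans (le_max_left _ _)
  replace hφ := hφ.mono (le_max_left K1 K2)
  replace hψ := hψ.mono (le_max_right K1 K2)
  rw [← hKdef] at hφ hψ
  obtain ⟨i, j, hi, hj, hr, hs⟩ := grid3
    (fun i j => tpN hK (Sum.elim (a i) (fun _ : Unit => x i j)))
    (fun i j => tpN hK (Sum.elim (c j) (fun _ : Unit => x i j)))
  -- transfer the three by three pattern to the standard model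
  let γ : Type := (Fin 3 × Fin k) ⊕ ((Fin 3 × Fin l) ⊕ (Fin 3 × Fin 3))
  let z : γ → N := Sum.elim (fun q => a (i q.1) q.2)
    (Sum.elim (fun q => c (j q.1) q.2) (fun q => x (i q.1) (j q.2)))
  let fa : Fin 3 → Fin k → γ := fun p t => .inl (p, t)
  let fc : Fin 3 → Fin l → γ := fun p t => .inr (.inl (p, t))
  let fx : Fin 3 → Fin 3 → γ := fun p q => .inr (.inr (p, q))
  let ι : Type := ((Fin 3 × Fin 3 × Fin 3) ⊕ (Fin 3 × Fin 3 × Fin 3)) ⊕
    (((Fin 3 × Fin 3) × {ρ : Set (Fin k ⊕ Unit → Pt) // Inv K ρ}) ⊕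
    ((Fin 3 × Fin 3) × {ρ : Set (Fin l ⊕ Unit → Pt) // Inv K ρ}))
  have : Finite ι := by
    have h1 : Finite {ρ : Set (Fin k ⊕ Unit → Pt) // Inv K ρ} := finite_inv K
    have h2 : Finite {ρ : Set (Fin l ⊕ Unit → Pt) // Inv K ρ} := finite_inv K
    infer_instance
  let F : ι → LD.Formula γ := Sum.elim
    (Sum.elim
      (fun t => φ.relabel (Sum.elim (fun _ => fx t.1 t.2.1) (fa t.2.2)))
      (fun t => ψ.relabel (Sum.elim (fun _ => fx t.1 t.2.1) (fc t.2.2))))
    (Sum.elim
      (fun t => (relF t.2.1 ⟨K, hK, t.2.2⟩).relabel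
        (Sum.elim (fa t.1.1) (fun _ => fx t.1.1 t.1.2)))
      (fun t => (relF t.2.1 ⟨K, hK, t.2.2⟩).relabel
        (Sum.elim (fc t.1.2) (fun _ => fx t.1.1 t.1.2))))
  obtain ⟨z', hz'⟩ := transfer jN z F
  let a' : Fin 3 → Fin k → Pt := fun p t => z' (fa p t)
  let c' : Fin 3 → Fin l → Pt := fun p t => z' (fc p t)
  let x' : Fin 3 → Fin 3 → Pt := fun p q => z' (fx p q)
  have e1 : ∀ p q p', φ.Realize (Sum.elim (fun _ : Fin 1 => x' p q) (a' p')) ↔ p' = p := by
    intro p q p'
    have h1 := hz' (.inl (.inl (p, q, p')))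
    have h2 : (φ.relabel (Sum.elim (fun _ => fx p q) (fa p'))).Realize z' ↔
      (φ.relabel (Sum.elim (fun _ => fx p q) (fa p'))).Realize z := h1
    rw [Formula.realize_relabel, Formula.realize_relabel] at h2
    have h3 : z' ∘ Sum.elim (fun _ : Fin 1 => fx p q) (fa p') =
        Sum.elim (fun _ : Fin 1 => x' p q) (a' p') := by
      funext b
      rcases b with b | b <;> rfl
    have h4 : z ∘ Sum.elim (fun _ : Fin 1 => fx p q) (fa p') =
        Sum.elim (fun _ : Fin 1 => x (i p) (j q)) (a (i p')) := by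
      funext b
      rcases b with b | b <;> rfl
    rw [h3, h4, (hx (i p) (j q)).1 (i p')] at h2
    rw [h2]
    exact ⟨fun h => hi h, fun h => by rw [h]⟩
  have e2 : ∀ p q q', ψ.Realize (Sum.elim (fun _ : Fin 1 => x' p q) (c' q')) ↔ q' = q := by
    intro p q q'
    have h1 := hz' (.inl (.inr (p, q, q')))
    have h2 : (ψ.relabel (Sum.elim (fun _ => fx p q) (fc q'))).Realize z' ↔
      (ψ.relabel (Sum.elim (fun _ => fx p q) (fc q'))).Realize z := h1
    rw [Formula.realize_relabel, Formula.realize_relabel] at h2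
    have h3 : z' ∘ Sum.elim (fun _ : Fin 1 => fx p q) (fc q') =
        Sum.elim (fun _ : Fin 1 => x' p q) (c' q') := by
      funext b
      rcases b with b | b <;> rfl
    have h4 : z ∘ Sum.elim (fun _ : Fin 1 => fx p q) (fc q') =
        Sum.elim (fun _ : Fin 1 => x (i p) (j q)) (c (j q')) := by
      funext b
      rcases b with b | b <;> rfl
    rw [h3, h4, (hx (i p) (j q)).2 (j q')] at h2
    rw [h2]
    exact ⟨fun h => hj h, fun h => by rw [h]⟩
  have e3 : ∀ p q q', Sim K (ex (a' p) (x' p q)) (ex (a' p) (x' p q')) := by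
    intro p q q'
    refine sim_of_tp hK fun ρ => ?_
    have h1 : ∀ q, ((relF ρ.1 ⟨K, hK, ρ.2⟩).Realize (ex (a' p) (x' p q)) ↔
        ρ ∈ tpN hK (Sum.elim (a (i p)) (fun _ : Unit => x (i p) (j q)))) := by
      intro q
      have h1 := hz' (.inr (.inl ((p, q), ρ)))
      have h2 : ((relF ρ.1 ⟨K, hK, ρ.2⟩).relabel
          (Sum.elim (fa p) (fun _ => fx p q))).Realize z' ↔
        ((relF ρ.1 ⟨K, hK, ρ.2⟩).relabel
          (Sum.elim (fa p) (fun _ => fx p q))).Realize z := h1
      rw [Formula.realize_relabel, Formula.realize_relabel] at h2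
      have h3 : z' ∘ Sum.elim (fa p) (fun _ : Unit => fx p q) = ex (a' p) (x' p q) := by
        funext b
        rcases b with b | b <;> rfl
      have h4 : z ∘ Sum.elim (fa p) (fun _ : Unit => fx p q) =
          Sum.elim (a (i p)) (fun _ : Unit => x (i p) (j q)) := by
        funext b
        rcases b with b | b <;> rfl
      rw [h3, h4] at h2
      exact h2
    rw [h1, h1]
    have h5 := hr p q q'
    exact iff_of_eq (congrArg (fun S => ρ ∈ S) h5)
  have e4 : ∀ p p' q, Sim K (ex (c' q) (x' p q)) (ex (c' q) (x' p' q)) := by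
    intro p p' q
    refine sim_of_tp hK fun ρ => ?_
    have h1 : ∀ p, ((relF ρ.1 ⟨K, hK, ρ.2⟩).Realize (ex (c' q) (x' p q)) ↔
        ρ ∈ tpN hK (Sum.elim (c (j q)) (fun _ : Unit => x (i p) (j q)))) := by
      intro p
      have h1 := hz' (.inr (.inr ((p, q), ρ)))
      have h2 : ((relF ρ.1 ⟨K, hK, ρ.2⟩).relabel
          (Sum.elim (fc q) (fun _ => fx p q))).Realize z' ↔
        ((relF ρ.1 ⟨K, hK, ρ.2⟩).relabel
          (Sum.elim (fc q) (fun _ => fx p q))).Realize z := h1
      rw [Formula.realize_relabel, Formula.realize_relabel] at h2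
      have h3 : z' ∘ Sum.elim (fc q) (fun _ : Unit => fx p q) = ex (c' q) (x' p q) := by
        funext b
        rcases b with b | b <;> rfl
      have h4 : z ∘ Sum.elim (fc q) (fun _ : Unit => fx p q) =
          Sum.elim (c (j q)) (fun _ : Unit => x (i p) (j q)) := by
        funext b
        rcases b with b | b <;> rfl
      rw [h3, h4] at h2
      exact h2
    rw [h1, h1]
    have h5 := hs p p' q
    exact iff_of_eq (congrArg (fun S => ρ ∈ S) h5)
  -- the similarity classes
  have flip : ∀ {n : ℕ} (v : Fin n → Pt) (y y' : Pt), Sim K (ex v y) (ex v y') →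
      Sim K (Sum.elim (fun _ : Fin 1 => y) v) (Sum.elim (fun _ : Fin 1 => y') v) := by
    intro n v y y' h
    have h1 := h.comp hK (Sum.elim (fun _ : Fin 1 => .inr ()) (fun t => .inl t) :
      Fin 1 ⊕ Fin n → Fin n ⊕ Unit)
    have h2 : ∀ y : Pt, (fun b => ex v y ((Sum.elim (fun _ : Fin 1 => .inr ()) (fun t => .inl t) :
      Fin 1 ⊕ Fin n → Fin n ⊕ Unit) b)) = Sum.elim (fun _ : Fin 1 => y) v := by
      intro y
      funext b
      rcases b with b | b <;> rfl
    rw [h2, h2] at h1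
    exact h1
  refine three (S := fun p => {y | Sim K (ex (a' p) (x' p 0)) (ex (a' p) y)})
    (C := fun q => {y | Sim K (ex (c' q) (x' 0 q)) (ex (c' q) y)})
    (fun p => class_nice hK _ _) (fun q => class_nice hK _ _) (x := x')
    (fun p q => e3 p 0 q) (fun p q => e4 0 p q) ?_ ?_
  · intro p p' q hpp h
    have h1 := hφ _ _ (flip _ _ _ h)
    have h2 : φ.Realize (Sum.elim (fun _ : Fin 1 => x' p 0) (a' p)) := (e1 p 0 p).2 rfl
    have h3 : φ.Realize (Sum.elim (fun _ : Fin 1 => x' p' q) (a' p)) := h1.1 h2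
    exact hpp ((e1 p' q p).1 h3)
  · intro q q' p hqq h
    have h1 := hψ _ _ (flip _ _ _ h)
    have h2 : ψ.Realize (Sum.elim (fun _ : Fin 1 => x' 0 q) (c' q)) := (e2 0 q q).2 rfl
    have h3 : ψ.Realize (Sum.elim (fun _ : Fin 1 => x' p q') (c' q)) := h1.1 h2
    exact hqq ((e2 p q' q).1 h3)

end Pool.Agent.Helper59.DF
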