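import Pool.Agent.Helper59.DF.Basic

/-!
# One point extension of similar tuples
-/

set_option autoImplicit false
set_option linter.unusedSectionVars false
set_option linter.unusedVariables false

namespace Pool.Agent.Helper59.DF

variable {α : Type} [Fintype α]

/-- the tuple `v` with the point `x` added -/
abbrev ex (v : α → Pt) (x : Pt) : α ⊕ Unit → Pt := Sum.elim v (fun _ : Unit => x)

/-- `e` together with `x` is balanced -/
def Od (v : α → Pt) (x : Pt) (e : α → ZMod 2) : Prop :=
  Bal (ex v x) (Sum.elim e (fun _ : Unit => 1))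

theorem node_one (x : Pt) : node (fun _ : Unit => x) (fun _ => 1) = nd x := by
  unfold node nd
  congr 1
  · obtain ⟨i, _, h⟩ := exists_cap (fun _ : Unit => x) (e := fun _ => 1)
      (fun h => one_ne_zero (congrFun h ()))
    exact h
  · funext t
    simp [sm]

theorem Od.exists {v : α → Pt} {x : Pt} {e : α → ZMod 2} (h : Od v x e) :
    ∃ i, e i ≠ 0 ∧ (v i).lev = x.lev := by
  unfold Od at h
  rw [bal_elim] at h
  have h1 := h.1 x.lev
  simp only [Fintype.univ_punit, Finset.sum_singleton, if_true, mul_one] at h1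
  by_contra h2
  push Not at h2
  rw [Finset.sum_eq_zero] at h1
  · exact zero_ne_one h1
  · intro i _
    by_cases h3 : e i = 0
    · rw [h3, mul_zero]
    · rw [if_neg (h2 i h3), zero_mul]

theorem Od.ne {v : α → Pt} {x : Pt} {e : α → ZMod 2} (h : Od v x e) : e ≠ 0 := by
  obtain ⟨i, hi, _⟩ := h.exists
  intro h1
  exact hi (congrFun h1 i)

theorem Od.cap_le {v : α → Pt} {x : Pt} {e : α → ZMod 2} (h : Od v x e) : cap v e ≤ x.lev := by
  obtain ⟨i, hi, h1⟩ := h.exists
  rw [← h1]
  exact DF.cap_le hi

theorem Od.W {v : α → Pt} {x : Pt} {e : α → ZMod 2} (h : Od v x e) :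
    DF.W (ex v x) (Sum.elim e (fun _ : Unit => 1)) = meet (node v e) (nd x) := by
  rw [W_elim v (fun _ : Unit => x) h.ne (fun h => one_ne_zero (congrFun h ())) h, node_one]

theorem bal_add {β : Type} [Fintype β] {v : α → Pt} {w : β → Pt} {e e' : α → ZMod 2}
    {f : β → ZMod 2} (h : Bal (Sum.elim v w) (Sum.elim e f))
    (h' : Bal (Sum.elim v w) (Sum.elim e' f)) : Bal v (e + e') := by
  rw [bal_elim] at h h'
  refine ⟨fun d => ?_, ?_⟩
  · simp only [Pi.add_apply, mul_add, Finset.sum_add_distrib]
    rw [h.1 d, h'.1 d, zadd_self]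
  · simp only [Pi.add_apply, mul_add, Finset.sum_add_distrib]
    rw [h.2, h'.2, zadd_self]

theorem Od.add {v : α → Pt} {x : Pt} {e e' : α → ZMod 2} (h : Od v x e) (h' : Od v x e') :
    Bal v (e + e') := bal_add h h'

theorem ex_lev {v w : α → Pt} {x y : Pt} (h : ∀ i j, (v i).lev = (v j).lev ↔ (w i).lev = (w j).lev)
    (hl : ∀ i, (v i).lev = x.lev ↔ (w i).lev = y.lev) (i j : α ⊕ Unit) :
    (ex v x i).lev = (ex v x j).lev ↔ (ex w y i).lev = (ex w y j).lev := by
  rcases i with i | i <;> rcases j with j | j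
  · exact h i j
  · exact hl i
  · rw [eq_comm, eq_comm (a := (ex w y (Sum.inr i)).lev)]
    exact hl j
  · simp

theorem ex_side {v w : α → Pt} {x y : Pt} (h : ∀ i, (v i).side = (w i).side)
    (hs : x.side = y.side) (i : α ⊕ Unit) : (ex v x i).side = (ex w y i).side := by
  rcases i with i | i
  · exact h i
  · exact hs

theorem ext_core {K : ℕ} (hK : 1 ≤ K) {v w : α → Pt} {x y : Pt} (h : Sim K v w)
    (hs : x.side = y.side) (hl : ∀ i, (v i).lev = x.lev ↔ (w i).lev = y.lev) {e₀ : α → ZMod 2}
    (he₀ : Od v x e₀)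
    (hmax : ∀ e, Od v x e → meet (node v e) (nd x) < meet (node v e₀) (nd x) ∨
      (meet (node v e) (nd x) = meet (node v e₀) (nd x) ∧ cap v e ≤ cap v e₀))
    (hcl : Close K (add (Q v w) (meet (node v e₀) (nd x)) (meet (node w e₀) (nd y)))) :
    Sim K (ex v x) (ex w y) := by
  have hlev := ex_lev (lev_eq_iff hK h.close) hl
  have hside := ex_side h.1 hs
  have hOd : ∀ e, Od v x e → Od w y e := fun e he => Bal.congr hlev hside he
  have hOd' : ∀ e, Od w y e → Od v x e := fun e he =>
    Bal.congr (fun i j => (hlev i j).symm) (fun i => (hside i).symm) he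
  refine sim_of_close hside (hcl.sub ?_)
  rintro a a' ⟨p, rfl, rfl⟩
  rcases p with _ | (i | i) | e
  · exact Or.inl (Q_zero v w)
  · exact Or.inl (Q_lev v w i)
  · obtain ⟨i, _, h1⟩ := he₀.exists
    left
    show Q v w x.lev y.lev
    rw [← h1, ← (hl i).1 h1]
    exact Q_lev v w i
  · obtain ⟨e1, e2, rfl⟩ : ∃ (e1 : α → ZMod 2) (e2 : Unit → ZMod 2), e = Sum.elim e1 e2 :=
      ⟨e ∘ Sum.inl, e ∘ Sum.inr, (Sum.elim_comp_inl_inr e).symm⟩
    show add _ _ _ (W (ex v x) (Sum.elim e1 e2)) (W (ex w y) (Sum.elim e1 e2))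
    have h01 : ∀ z : ZMod 2, z = 0 ∨ z = 1 := by decide
    rcases h01 (e2 ()) with h2 | h2
    · have h3 : e2 = 0 := funext fun i => h2
      subst h3
      rw [W_elim_left, W_elim_left]
      exact Or.inl (Q_W v w e1)
    · have h3 : e2 = fun _ => 1 := funext fun i => h2
      subst h3
      by_cases hO : Od v x e1
      · rw [hO.W, (hOd e1 hO).W]
        have he₀' := hOd _ he₀
        have hO' := hOd _ hO
        have t1 := meet_tri (node v e1) (nd x) (node v e₀)
        have t2 := meet_tri (node v e1) (node v e₀) (nd x)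
        have t3 := meet_tri (nd x) (node v e1) (node v e₀)
        rw [meet_comm (nd x) (node v e₀)] at t1 t3
        rw [meet_comm (nd x) (node v e1)] at t3
        have t1' := meet_tri (node w e1) (nd y) (node w e₀)
        have t2' := meet_tri (node w e1) (node w e₀) (nd y)
        have t3' := meet_tri (nd y) (node w e1) (node w e₀)
        rw [meet_comm (nd y) (node w e₀)] at t1' t3'
        rw [meet_comm (nd y) (node w e1)] at t3'
        have hm := hmax e1 hO
        have hQG := Q_meet hK h hO.ne he₀.ne (hO.add he₀)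
        have hQc := Q_cap hK h.close e1
        have hQc0 := Q_cap hK h.close e₀
        have hl0 : add (Q v w) (meet (node v e₀) (nd x)) (meet (node w e₀) (nd y))
          (meet (node v e₀) (nd x)) (meet (node w e₀) (nd y)) := Or.inr ⟨rfl, rfl⟩
        have c1 := hcl.eq_iff hK hl0 (Or.inl hQG)
        have c2 := hcl.lt_iff hK hl0 (Or.inl hQc)
        have c3 := hcl.lt_iff hK hl0 (Or.inl hQc0)
        have hM : meet (node v e1) (nd x) =
            min (meet (node v e₀) (nd x)) (meet (node v e1) (node v e₀)) := by omega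
        have hM' : meet (node w e1) (nd y) =
            min (meet (node w e₀) (nd y)) (meet (node w e1) (node w e₀)) := by
          by_contra hne
          have g1 : meet (node w e₀) (nd y) = meet (node w e1) (node w e₀) := by omega
          have g2 : meet (node w e₀) (nd y) < meet (node w e1) (nd y) := by omega
          have g3 : meet (node v e₀) (nd x) = meet (node v e1) (node v e₀) := c1.2 g1
          have g4 : meet (node w e1) (nd y) ≤ cap w e1 := meet_le_left _ _
          have g5 : meet (node v e₀) (nd x) < cap v e1 := c2.2 (by omega)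
          have g6 : meet (node w e₀) (nd y) ≤ cap w e₀ := meet_le_left _ _
          have g6' : meet (node v e₀) (nd x) ≤ cap v e₀ := meet_le_left _ _
          by_cases g7 : meet (node w e₀) (nd y) < cap w e₀
          · have g8 := c3.2 g7
            have g9 := he₀.cap_le
            have g10 := meet_bin (x := node v e₀) (y := node v e1) (z := nd x)
              (n := meet (node v e₀) (nd x)) (by rw [meet_comm]; exact g3.symm) rfl g8 g5
              (by show _ < x.lev; omega)
            omega
          · have g8 : ¬ meet (node v e₀) (nd x) < cap v e₀ := fun g => g7 (c3.1 g)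
            omega
        rw [hM, hM']
        exact hcl.min_mem hK hl0 (Or.inl hQG)
      · have hO' : ¬ Od w y e1 := fun h => hO (hOd' _ h)
        rw [W_of_not_bal hO, W_of_not_bal hO']
        exact Or.inl (Q_zero v w)

theorem noOd_core {K : ℕ} (hK : 1 ≤ K) {v w : α → Pt} {x y : Pt} (h : Sim K v w)
    (hs : x.side = y.side) (hcl : Close K (add (Q v w) x.lev y.lev)) (hO : ∀ e, ¬ Od v x e) :
    Sim K (ex v x) (ex w y) := by
  have hl : ∀ i, (v i).lev = x.lev ↔ (w i).lev = y.lev := fun i =>
    hcl.eq_iff hK (Or.inl (Q_lev v w i)) (Or.inr ⟨rfl, rfl⟩)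
  have hlev := ex_lev (lev_eq_iff hK h.close) hl
  have hside := ex_side h.1 hs
  have hOd' : ∀ e, Od w y e → Od v x e := fun e he =>
    Bal.congr (fun i j => (hlev i j).symm) (fun i => (hside i).symm) he
  refine sim_of_close hside (hcl.sub ?_)
  rintro a a' ⟨p, rfl, rfl⟩
  rcases p with _ | (i | i) | e
  · exact Or.inl (Q_zero v w)
  · exact Or.inl (Q_lev v w i)
  · exact Or.inr ⟨rfl, rfl⟩
  · obtain ⟨e1, e2, rfl⟩ : ∃ (e1 : α → ZMod 2) (e2 : Unit → ZMod 2), e = Sum.elim e1 e2 :=
      ⟨e ∘ Sum.inl, e ∘ Sum.inr, (Sum.elim_comp_inl_inr e).symm⟩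
    show add _ _ _ (W (ex v x) (Sum.elim e1 e2)) (W (ex w y) (Sum.elim e1 e2))
    have h01 : ∀ z : ZMod 2, z = 0 ∨ z = 1 := by decide
    rcases h01 (e2 ()) with h2 | h2
    · have h3 : e2 = 0 := funext fun i => h2
      subst h3
      rw [W_elim_left, W_elim_left]
      exact Or.inl (Q_W v w e1)
    · have h3 : e2 = fun _ => 1 := funext fun i => h2
      subst h3
      rw [W_of_not_bal (hO e1), W_of_not_bal fun h => hO e1 (hOd' _ h)]
      exact Or.inl (Q_zero v w)

/-- a combination whose meet with `x` is the largest possible -/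
theorem exists_max {v : α → Pt} {x : Pt} (hO : ∃ e, Od v x e) : ∃ e₀, Od v x e₀ ∧
    ∀ e, Od v x e → meet (node v e) (nd x) < meet (node v e₀) (nd x) ∨
      (meet (node v e) (nd x) = meet (node v e₀) (nd x) ∧ cap v e ≤ cap v e₀) := by
  classical
  obtain ⟨e, he⟩ := hO
  obtain ⟨e₀, h1, h2⟩ := Finset.exists_max_image (Finset.univ.filter (fun e => Od v x e))
    (fun e => toLex (meet (node v e) (nd x), cap v e)) ⟨e, by simpa using he⟩
  refine ⟨e₀, by simpa using h1, fun e he => ?_⟩
  have h3 := h2 e (by simpa using he)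
  rw [Prod.Lex.le_iff] at h3
  exact h3

theorem exists_ext {K : ℕ} (hK : 1 ≤ K) {v w : α → Pt} (h : Sim (2 * K) v w) (x : Pt) :
    ∃ y, Sim K (ex v x) (ex w y) := by
  have h' : Sim K v w := h.mono (by omega)
  by_cases hO : ∃ e, Od v x e
  · obtain ⟨e₀, he₀, hmax⟩ := exists_max hO
    obtain ⟨i, hi, hix⟩ := he₀.exists
    obtain ⟨l', hcl⟩ := h.close.ext hK (Q_zero v w) (meet (node v e₀) (nd x))
    have hl0 : add (Q v w) (meet (node v e₀) (nd x)) l' (meet (node v e₀) (nd x)) l' :=
      Or.inr ⟨rfl, rfl⟩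
    have hQc := Q_cap hK h'.close e₀
    have c1 := hcl.le_iff hK hl0 (Or.inl hQc)
    have c2 : l' ≤ cap w e₀ := c1.1 (meet_le_left _ _)
    have c3 : cap w e₀ ≤ (w i).lev := cap_le hi
    let y : Pt := ⟨x.side, (w i).lev,
      fun t => if t < l' then sm w e₀ t else if t = l' ∧ l' < cap w e₀ then sm w e₀ t + 1 else 0, by
        intro t ht
        show (if t < l' then sm w e₀ t else if t = l' ∧ l' < cap w e₀ then sm w e₀ t + 1 else 0) = 0
        rw [if_neg (by omega), if_neg (by omega)]⟩
    have hy : meet (node w e₀) (nd y) = l' := by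
      apply meet_eq_of
      · exact c2
      · exact c2.trans c3
      · intro t ht
        show sm w e₀ t = (if t < l' then sm w e₀ t else _)
        rw [if_pos ht]
      · by_cases c4 : l' < cap w e₀
        · right; right
          show sm w e₀ l' ≠ (if l' < l' then sm w e₀ l' else
            if l' = l' ∧ l' < cap w e₀ then sm w e₀ l' + 1 else 0)
          rw [if_neg (lt_irrefl _), if_pos ⟨rfl, c4⟩]
          generalize sm w e₀ l' = z
          revert z
          decide
        · left
          show l' = cap w e₀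
          omega
    refine ⟨y, ext_core hK h' rfl ?_ he₀ hmax ?_⟩
    · intro k
      rw [← hix]
      exact lev_eq_iff hK h'.close k i
    · rw [hy]
      exact hcl
  · push Not at hO
    obtain ⟨l', hcl⟩ := h.close.ext hK (Q_zero v w) x.lev
    exact ⟨⟨x.side, l', 0, fun _ _ => rfl⟩, noOd_core hK h' rfl hcl hO⟩

end Pool.Agent.Helper59.DF
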