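import Pool.Agent.Helper59.DF.Ext
import Pool.Agent.Helper59.DF.Defs

/-!
# The language of all relations invariant under similarity, and elimination of quantifiers
-/

set_option autoImplicit false
set_option linter.unusedSectionVars false
set_option linter.unusedVariables false

open FirstOrder FirstOrder.Language

namespace Pool.Agent.Helper59.DF

/-- `K`-invariant relations -/
def Inv {α : Type} [Fintype α] (K : ℕ) (ρ : Set (α → Pt)) : Prop :=
  ∀ v w, Sim K v w → (v ∈ ρ ↔ w ∈ ρ)

/-- the language: a relation symbol for every relation which is `K`-invariant for some `K` -/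
def LD : FirstOrder.Language.{0, 0} :=
  ⟨fun _ => Empty, fun n => {ρ : Set (Fin n → Pt) // ∃ K, 1 ≤ K ∧ Inv K ρ}⟩

instance : LD.Structure Pt where
  funMap := fun f => f.elim
  RelMap := fun r v => v ∈ r.1

theorem Inv.mono {α : Type} [Fintype α] {K K' : ℕ} {ρ : Set (α → Pt)} (h : Inv K ρ)
    (hK : K ≤ K') : Inv K' ρ := fun v w hv => h v w (hv.mono hK)

theorem Inv.comp {α β : Type} [Fintype α] [Fintype β] {K : ℕ} (hK : 1 ≤ K) {ρ : Set (β → Pt)}
    (h : Inv K ρ) (f : β → α) : Inv K {v : α → Pt | (fun b => v (f b)) ∈ ρ} :=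
  fun v w hv => h _ _ (hv.comp hK f)

/-- equality of two points of a tuple is invariant -/
theorem sim_eq {α : Type} [Fintype α] {K : ℕ} (hK : 1 ≤ K) {v w : α → Pt} (h : Sim K v w)
    {i j : α} (hij : v i = v j) : w i = w j := by
  have h2 := h.comp hK (Sum.elim (fun _ : Unit => i) (fun _ : Unit => j))
  set f : Unit ⊕ Unit → α := Sum.elim (fun _ : Unit => i) (fun _ : Unit => j) with hf
  have hv : (fun b => v (f b)) = Sum.elim (fun _ : Unit => v i) (fun _ : Unit => v j) := by
    funext b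
    rcases b with b | b <;> rfl
  have hw : (fun b => w (f b)) = Sum.elim (fun _ : Unit => w i) (fun _ : Unit => w j) := by
    funext b
    rcases b with b | b <;> rfl
  rw [hv, hw] at h2
  have hside : (w i).side = (w j).side := by
    rw [← h.1 i, ← h.1 j, hij]
  have hlev : (w i).lev = (w j).lev :=
    (lev_eq_iff hK h.close i j).1 (by rw [hij])
  have hbv : Bal (Sum.elim (fun _ : Unit => v i) (fun _ : Unit => v j))
      (Sum.elim (fun _ : Unit => 1) (fun _ : Unit => 1)) := by
    rw [bal_elim, hij]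
    exact ⟨fun _ => rfl, rfl⟩
  have hbw := h2.bal hK hbv
  have hne : (fun _ : Unit => (1 : ZMod 2)) ≠ 0 := fun h => one_ne_zero (congrFun h ())
  have hWv := W_elim _ _ hne hne hbv
  have hWw := W_elim _ _ hne hne hbw
  rw [node_one, node_one] at hWv hWw
  rw [hij, meet_self] at hWv
  have h3 : (w i).lev = meet (nd (w i)) (nd (w j)) := by
    rw [← hWw]
    refine (h2.close.eq_iff hK (Q_lev _ _ (.inl ())) (Q_W _ _ _)).1 ?_
    show (v i).lev = _
    rw [hij]
    exact hWv.symm
  ext t
  · rw [hside]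
  · exact hlev
  · by_cases ht : t < (w i).lev
    · exact meet_agree (nd (w i)) (nd (w j)) (by omega)
    · rw [(w i).supp t (by omega), (w j).supp t (by omega)]

theorem term_var {β : Type} (t : LD.Term β) : ∃ b, t = Term.var b := by
  cases t with
  | var b => exact ⟨b, rfl⟩
  | func f _ => exact f.elim

/-- every formula is invariant under `K`-similarity for some `K` -/
theorem qe_bounded {α : Type} [Fintype α] {n : ℕ} (φ : LD.BoundedFormula α n) :
    ∃ K, 1 ≤ K ∧ ∀ (v w : α → Pt) (xs ys : Fin n → Pt), Sim K (Sum.elim v xs) (Sum.elim w ys) →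
      (φ.Realize v xs ↔ φ.Realize w ys) := by
  induction φ with
  | falsum => exact ⟨1, le_rfl, fun _ _ _ _ _ => Iff.rfl⟩
  | equal t₁ t₂ =>
    refine ⟨1, le_rfl, fun v w xs ys h => ?_⟩
    obtain ⟨i, rfl⟩ := term_var t₁
    obtain ⟨j, rfl⟩ := term_var t₂
    exact ⟨fun h1 => sim_eq le_rfl h h1, fun h1 => sim_eq le_rfl h.symm h1⟩
  | rel R ts =>
    obtain ⟨K, hK, hR⟩ := R.2
    refine ⟨K, hK, fun v w xs ys h => ?_⟩
    choose f hf using fun i => term_var (ts i)
    have h1 := hR _ _ (h.comp hK f)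
    have h2 : ∀ (v : _ → Pt) (xs : _ → Pt),
        ((BoundedFormula.rel R ts).Realize v xs ↔ (fun b => Sum.elim v xs (f b)) ∈ R.1) := by
      intro v xs
      have h3 : (fun i => (ts i).realize (Sum.elim v xs)) = fun b => Sum.elim v xs (f b) := by
        funext i
        rw [hf i]
        rfl
      rw [← h3]
      exact Iff.rfl
    rw [h2, h2]
    exact h1
  | imp φ ψ ih1 ih2 =>
    obtain ⟨K1, hK1, h1⟩ := ih1
    obtain ⟨K2, hK2, h2⟩ := ih2
    refine ⟨max K1 K2, hK1.trans (le_max_left _ _), fun v w xs ys h => ?_⟩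
    rw [BoundedFormula.realize_imp, BoundedFormula.realize_imp,
      h1 v w xs ys (h.mono (le_max_left _ _)), h2 v w xs ys (h.mono (le_max_right _ _))]
  | @all n φ ih =>
    obtain ⟨K, hK, hφ⟩ := ih
    have key : ∀ (v w : α → Pt) (xs ys : Fin n → Pt),
        Sim (2 * K) (Sum.elim v xs) (Sum.elim w ys) → (∀ x, φ.Realize v (Fin.snoc xs x)) →
          ∀ y, φ.Realize w (Fin.snoc ys y) := by
      intro v w xs ys h h1 y
      obtain ⟨x, hx⟩ := exists_ext hK h.symm y
      let f : α ⊕ Fin (n + 1) → (α ⊕ Fin n) ⊕ Unit :=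
        Sum.elim (fun a => .inl (.inl a)) (fun i => Fin.lastCases (.inr ()) (fun i => .inl (.inr i)) i)
      have hf : ∀ (v : α → Pt) (xs : Fin n → Pt) (x : Pt),
          (fun b => ex (Sum.elim v xs) x (f b)) =
            Sum.elim v (Fin.snoc xs x : Fin (n + 1) → Pt) := by
        intro v xs x
        funext b
        rcases b with a | i
        · rfl
        · refine Fin.lastCases ?_ (fun i => ?_) i
          · simp [f]
          · simp [f]
      have h2 := hx.comp hK f
      rw [hf, hf] at h2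
      rw [hφ _ _ _ _ h2]
      exact h1 x
    refine ⟨2 * K, by omega, fun v w xs ys h => ?_⟩
    rw [BoundedFormula.realize_all, BoundedFormula.realize_all]
    exact ⟨key v w xs ys h, key w v ys xs h.symm⟩

/-- every formula is invariant under `K`-similarity for some `K` -/
theorem qe {α : Type} [Fintype α] (φ : LD.Formula α) :
    ∃ K, 1 ≤ K ∧ Inv K {v : α → Pt | φ.Realize v} := by
  obtain ⟨K, hK, h⟩ := qe_bounded φ
  refine ⟨K, hK, fun v w hv => ?_⟩
  have h1 : Sim K (Sum.elim v (default : Fin 0 → Pt)) (Sum.elim w (default : Fin 0 → Pt)) := by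
    have h2 := hv.comp hK (Sum.elim id (fun i : Fin 0 => i.elim0) : α ⊕ Fin 0 → α)
    have h3 : ∀ v : α → Pt, (fun b => v (Sum.elim id (fun i : Fin 0 => i.elim0) b)) =
        Sum.elim v (default : Fin 0 → Pt) := by
      intro v
      funext b
      rcases b with b | b
      · rfl
      · exact b.elim0
    rw [h3, h3] at h2
    exact h2
  exact h v w _ _ h1

/-- the symbol of an invariant relation -/
def relSym {n : ℕ} (ρ : Set (Fin n → Pt)) (h : ∃ K, 1 ≤ K ∧ Inv K ρ) : LD.Relations n := ⟨ρ, h⟩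

theorem relMap_relSym {n : ℕ} (ρ : Set (Fin n → Pt)) (h : ∃ K, 1 ≤ K ∧ Inv K ρ)
    (v : Fin n → Pt) : Structure.RelMap (relSym ρ h) v ↔ v ∈ ρ := Iff.rfl

theorem relF_aux {α : Type} [Fintype α] {ρ : Set (α → Pt)} (h : ∃ K, 1 ≤ K ∧ Inv K ρ) :
    ∃ K, 1 ≤ K ∧ Inv K {w : Fin (Fintype.card α) → Pt |
      (fun b => w (Fintype.equivFin α b)) ∈ ρ} := by
  obtain ⟨K, hK, hρ⟩ := h
  exact ⟨K, hK, hρ.comp hK _⟩

/-- the formula of an invariant relation -/
noncomputable def relF {α : Type} [Fintype α] (ρ : Set (α → Pt)) (h : ∃ K, 1 ≤ K ∧ Inv K ρ) :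
    LD.Formula α :=
  Relations.formula (relSym _ (relF_aux h)) (fun i => Term.var ((Fintype.equivFin α).symm i))

theorem realize_relF {α : Type} [Fintype α] (ρ : Set (α → Pt)) (h : ∃ K, 1 ≤ K ∧ Inv K ρ)
    (v : α → Pt) : (relF ρ h).Realize v ↔ v ∈ ρ := by
  unfold relF
  rw [Formula.realize_rel, relMap_relSym]
  simp only [Set.mem_ofPred_eq, Term.realize_var, Equiv.symm_apply_apply]

end Pool.Agent.Helper59.DF
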