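import Pool.Agent.Helper59.DF.Transfer

/-!
# The family and the absence of a definable type containing it
-/

set_option autoImplicit false
set_option linter.unusedSectionVars false
set_option linter.unusedVariables false

open FirstOrder FirstOrder.Language

namespace Pool.Agent.Helper59.DF

/-! #### general facts on types over `M` -/

section general

variable {L : FirstOrder.Language.{0, 0}} {M : Type} [L.Structure M] {n : ℕ}

theorem realize_inst {k : ℕ} (φ : L.Formula (Fin n ⊕ Fin k)) (b : Fin k → M) (a : Fin n → M) :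
    (inst φ b).Realize a ↔ φ.Realize (Sum.elim a b) := by
  have h1 : (inst φ b).Realize a ↔ ((L.lhomWithConstants M).onFormula φ).Realize
      (fun x : Fin n ⊕ Fin k => Term.realize a (Sum.elim (fun i => Term.var i)
      (fun j => (L.con (b j)).term) x : L[[M]].Term (Fin n))) :=
    BoundedFormula.realize_subst
  have h2 : (fun x : Fin n ⊕ Fin k => Term.realize a (Sum.elim (fun i => Term.var i)
      (fun j => (L.con (b j)).term) x : L[[M]].Term (Fin n))) = Sum.elim a b := by
    funext x
    rcases x with x | x <;> rfl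
  rw [h1, h2]
  exact LHom.realize_onFormula _ φ

/-- a complete type over `M` is the type of a tuple in a model of the elementary diagram, and
finitely many formulas take the same truth values at some tuple of `M` -/
theorem type_real [Nonempty M] (p : (L.elementaryDiagram M).CompleteType (Fin n)) {ι : Type}
    [Finite ι] (F : ι → L[[M]].Formula (Fin n)) :
    ∃ a : Fin n → M, ∀ i, (F i).Realize a ↔ FormulaMem (F i) p := by
  classical
  obtain ⟨K, v, hv⟩ := Theory.exists_modelType_is_realized_in _ p
  have hmem : ∀ φ : L[[M]].Formula (Fin n), FormulaMem φ p ↔ φ.Realize v := by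
    intro φ
    unfold FormulaMem
    rw [← hv]
    exact Theory.CompleteType.formula_mem_typeOf
  let G : ι → L[[M]].Formula (Fin n) := fun i => if FormulaMem (F i) p then F i else (F i).not
  let θ : L[[M]].Formula (Fin n) := Formula.iInf G
  let χ : L[[M]].Sentence := Formula.iExs (Fin n) (θ.relabel (Sum.inr : Fin n → Empty ⊕ Fin n))
  have hK : Formula.Realize χ (Empty.elim : Empty → K) := by
    rw [Formula.realize_iExs]
    refine ⟨v, ?_⟩
    rw [Formula.realize_relabel, Sum.elim_comp_inr, Formula.realize_iInf]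
    intro i
    by_cases h : FormulaMem (F i) p
    · show (if FormulaMem (F i) p then F i else (F i).not).Realize v
      rw [if_pos h]
      exact (hmem _).1 h
    · show (if FormulaMem (F i) p then F i else (F i).not).Realize v
      rw [if_neg h, Formula.realize_not]
      exact fun h1 => h ((hmem _).2 h1)
  have hM : Formula.Realize χ (Empty.elim : Empty → M) := by
    by_contra hM
    have h1 : (Formula.not χ : L[[M]].Sentence) ∈ L.elementaryDiagram M := by
      show Sentence.Realize M (Formula.not χ)
      have h2 : (default : Empty → M) = Empty.elim := Subsingleton.elim _ _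
      unfold Sentence.Realize
      rw [Formula.realize_not, h2]
      exact hM
    have h3 : Sentence.Realize K (Formula.not χ) :=
      Theory.realize_sentence_of_mem (L.elementaryDiagram M) h1
    unfold Sentence.Realize at h3
    rw [Formula.realize_not] at h3
    have h2 : (default : Empty → K) = Empty.elim := Subsingleton.elim _ _
    rw [h2] at h3
    exact h3 hK
  rw [Formula.realize_iExs] at hM
  obtain ⟨a, ha⟩ := hM
  rw [Formula.realize_relabel, Sum.elim_comp_inr, Formula.realize_iInf] at ha
  refine ⟨a, fun i => ?_⟩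
  have h1 : (if FormulaMem (F i) p then F i else (F i).not).Realize a := ha i
  by_cases h : FormulaMem (F i) p
  · rw [if_pos h] at h1
    exact ⟨fun _ => h, fun _ => h1⟩
  · rw [if_neg h, Formula.realize_not] at h1
    exact ⟨fun h2 => absurd h2 h1, fun h2 => absurd h2 h⟩

end general

/-! #### shifts -/

/-- the shift of the second side at the place `t` -/
def shift (t : ℕ) (x : Pt) : Pt :=
  ⟨x.side, x.lev, fun s => x.str s +
    (if x.side = true then (1 : ZMod 2) else 0) * (if s = t ∧ t < x.lev then (1 : ZMod 2) else 0), by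
    intro s hs
    rw [x.supp s hs, if_neg (c := s = t ∧ t < x.lev) (by omega), mul_zero, add_zero]⟩

theorem shift_low {t : ℕ} {x : Pt} (h : x.lev ≤ t) : shift t x = x := by
  ext s
  · rfl
  · rfl
  · show x.str s + (if x.side = true then (1 : ZMod 2) else 0) *
      (if s = t ∧ t < x.lev then (1 : ZMod 2) else 0) = x.str s
    rw [if_neg (c := s = t ∧ t < x.lev) (by omega), mul_zero, add_zero]

theorem sim_shift {α : Type} [Fintype α] (K t : ℕ) (v : α → Pt) :
    Sim K v (fun i => shift t (v i)) := by
  have hbal : ∀ e, Bal v e ↔ Bal (fun i => shift t (v i)) e := fun e => Iff.rfl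
  have hcap : ∀ e, cap (fun i => shift t (v i)) e = cap v e := fun e => rfl
  have hW : ∀ e, W (fun i => shift t (v i)) e = W v e := by
    intro e
    by_cases hb : Bal v e
    · rw [W_of_bal hb, W_of_bal ((hbal e).1 hb), hcap]
      have hsm : ∀ s < cap v e, sm (fun i => shift t (v i)) e s = sm v e s := by
        intro s hs
        have h1 : sm (fun i => shift t (v i)) e s = sm v e s +
            ∑ i, (if (v i).side = true then (1 : ZMod 2) else 0) *
              (if s = t ∧ t < (v i).lev then (1 : ZMod 2) else 0) * e i := by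
          unfold sm
          rw [← Finset.sum_add_distrib]
          refine Finset.sum_congr rfl fun i _ => ?_
          show ((v i).str s + (if (v i).side = true then (1 : ZMod 2) else 0) *
            (if s = t ∧ t < (v i).lev then (1 : ZMod 2) else 0)) * e i = _
          rw [add_mul]
        rw [h1]
        have h2 : ∑ i, (if (v i).side = true then (1 : ZMod 2) else 0) *
              (if s = t ∧ t < (v i).lev then (1 : ZMod 2) else 0) * e i = 0 := by
          by_cases hst : s = t
          · subst hst
            refine (Finset.sum_congr rfl fun i _ => ?_).trans hb.2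
            by_cases he : e i = 0
            · rw [he, mul_zero, mul_zero]
            · have h3 : s < (v i).lev := lt_of_lt_of_le hs (cap_le he)
              rw [if_pos (c := s = s ∧ s < (v i).lev) ⟨rfl, h3⟩, mul_one]
          · refine Finset.sum_eq_zero fun i _ => ?_
            rw [if_neg (c := s = t ∧ t < (v i).lev) (fun h => hst h.1), mul_zero, zero_mul]
        rw [h2, add_zero]
      apply le_antisymm
      · have h3 := (le_mt (c := cap v e) (f := sm (fun i => shift t (v i)) e) (g := 0)).1 le_rfl
        rw [le_mt]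
        refine ⟨h3.1, fun s hs => ?_⟩
        rw [← hsm s (lt_of_lt_of_le hs h3.1)]
        exact h3.2 s hs
      · have h3 := (le_mt (c := cap v e) (f := sm v e) (g := 0)).1 le_rfl
        rw [le_mt]
        refine ⟨h3.1, fun s hs => ?_⟩
        rw [hsm s (lt_of_lt_of_le hs h3.1)]
        exact h3.2 s hs
    · rw [W_of_not_bal hb, W_of_not_bal fun h => hb ((hbal e).2 h)]
  have hval : ∀ p, val (fun i => shift t (v i)) p = val v p := by
    rintro (_ | i | e)
    · rfl
    · rfl
    · exact hW e
  exact ⟨fun _ => rfl, fun p q => by rw [hval, hval]⟩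

/-! #### the family and the node relation -/

/-- the family: pairs of points of the same level above the level of the parameter, one of each
side -/
def XX : Set (Fin 1 ⊕ Fin 2 → Pt) :=
  {v | (v (.inr 0)).side = false ∧ (v (.inr 1)).side = true ∧
    (v (.inr 0)).lev = (v (.inr 1)).lev ∧ (v (.inl 0)).lev < (v (.inr 0)).lev}

theorem inv_XX : Inv 1 XX := by
  intro v w h
  have h1 := h.1 (.inr 0)
  have h2 := h.1 (.inr 1)
  have h3 := lev_eq_iff le_rfl h.close (.inr 0) (.inr 1)
  have h4 := h.close.lt_iff le_rfl (Q_lev v w (.inl 0)) (Q_lev v w (.inr 0))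
  unfold XX
  rw [Set.mem_ofPred_eq, Set.mem_ofPred_eq, h1, h2, h3, h4]

/-- side conditions of the node relation -/
def RC (v : Fin 2 ⊕ Fin 2 → Pt) : Prop :=
  (v (.inl 0)).side = false ∧ (v (.inl 1)).side = true ∧ (v (.inr 0)).side = false ∧
    (v (.inr 1)).side = true ∧ (v (.inl 0)).lev = (v (.inl 1)).lev ∧
    (v (.inr 0)).lev = (v (.inr 1)).lev ∧ (v (.inr 0)).lev ≤ (v (.inl 0)).lev

/-- the node relation: the node of the pair `x` lies above the node of the pair `y` -/
def RR : Set (Fin 2 ⊕ Fin 2 → Pt) :=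
  {v | RC v ∧ ∀ t < (v (.inr 0)).lev, (v (.inl 0)).str t + (v (.inl 1)).str t =
    (v (.inr 0)).str t + (v (.inr 1)).str t}

theorem RC_iff {K : ℕ} (hK : 1 ≤ K) {v w : Fin 2 ⊕ Fin 2 → Pt} (h : Sim K v w) : RC v ↔ RC w := by
  have h1 := h.1 (.inl 0)
  have h2 := h.1 (.inl 1)
  have h3 := h.1 (.inr 0)
  have h4 := h.1 (.inr 1)
  have h5 := lev_eq_iff hK h.close (.inl 0) (.inl 1)
  have h6 := lev_eq_iff hK h.close (.inr 0) (.inr 1)
  have h7 := h.close.le_iff hK (Q_lev v w (.inr 0)) (Q_lev v w (.inl 0))
  unfold RC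
  rw [h1, h2, h3, h4, h5, h6, h7]

theorem RR_iff (v : Fin 2 ⊕ Fin 2 → Pt) :
    v ∈ RR ↔ RC v ∧ (v (.inr 0)).lev ≤ W v (fun _ => 1) := by
  unfold RR
  rw [Set.mem_ofPred_eq]
  refine and_congr_right fun hC => ?_
  obtain ⟨a1, a2, a3, a4, a5, a6, a7⟩ := hC
  have hb : Bal v (fun _ => 1) := by
    unfold Bal
    simp only [Fintype.sum_sum_type, Fin.sum_univ_two, mul_one, a1, a2, a3, a4, a5, a6]
    refine ⟨fun d => ?_, by decide⟩
    rw [zadd_self, zadd_self, add_zero]
  have hcap : cap v (fun _ => 1) = (v (.inr 0)).lev := by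
    apply le_antisymm
    · exact cap_le one_ne_zero
    · rw [le_cap (fun h => one_ne_zero (congrFun h (.inr 0)))]
      rintro (i | i) _
      · fin_cases i
        · exact a7
        · exact a7.trans a5.le
      · fin_cases i
        · exact le_rfl
        · exact a6.le
  have hz : ∀ a b c d : ZMod 2, a + b = c + d ↔ a + b + (c + d) = 0 := by decide
  rw [W_of_bal hb, hcap, le_mt]
  constructor
  · intro h
    refine ⟨le_rfl, fun t ht => ?_⟩
    show sm v (fun _ => 1) t = 0
    unfold sm
    simp only [Fintype.sum_sum_type, Fin.sum_univ_two, mul_one]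
    exact (hz _ _ _ _).1 (h t ht)
  · rintro ⟨_, h⟩ t ht
    have h1 : sm v (fun _ => 1) t = 0 := h t ht
    unfold sm at h1
    simp only [Fintype.sum_sum_type, Fin.sum_univ_two, mul_one] at h1
    exact (hz _ _ _ _).2 h1

theorem inv_RR : Inv 1 RR := by
  intro v w h
  rw [RR_iff, RR_iff, RC_iff le_rfl h,
    h.close.le_iff le_rfl (Q_lev v w (.inr 0)) (Q_W v w (fun _ => 1))]

/-- a point of the second side -/
def pO (d : ℕ) (u : Fin d → ZMod 2) : Pt :=
  ⟨true, d, fun t => if h : t < d then u ⟨t, h⟩ else 0, fun t ht => dif_neg (by omega)⟩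

/-- the zero of the first side -/
def pL (d : ℕ) : Pt := ⟨false, d, 0, fun _ _ => rfl⟩

theorem noType : ¬ ∃ p : (LD.elementaryDiagram Pt).CompleteType (Fin 2), IsDefinableType p ∧
    ∀ b ∈ (Set.univ : Set (Fin 1 → Pt)), SetMem (fiber XX b) p := by
  classical
  rintro ⟨p, hdef, hX⟩
  have hne : Nonempty Pt := ⟨pL 0⟩
  let φR : LD.Formula (Fin 2 ⊕ Fin 2) := relF RR ⟨1, le_rfl, inv_RR⟩
  have hφR : ∀ a b : Fin 2 → Pt, (inst φR b).Realize a ↔ Sum.elim a b ∈ RR := by
    intro a b
    rw [realize_inst, realize_relF]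
  -- step one
  have step1 : ∀ d : ℕ, ∃ u : Fin d → ZMod 2, FormulaMem (inst φR ![pL d, pO d u]) p := by
    intro d
    obtain ⟨φX, hφX, hmem⟩ := hX (fun _ => pL d) (Set.mem_univ _)
    obtain ⟨a, ha⟩ := type_real p (fun i : Option (Fin d → ZMod 2) =>
      match i with
      | none => φX
      | some u => inst φR ![pL d, pO d u])
    have h1 : φX.Realize a := (ha none).2 hmem
    have h2 : a ∈ fiber XX (fun _ => pL d) := by
      rw [hφX]
      exact h1
    obtain ⟨b1, b2, b3, b4⟩ : (a 0).side = false ∧ (a 1).side = true ∧ (a 0).lev = (a 1).lev ∧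
      d < (a 0).lev := h2
    refine ⟨fun t => (a 0).str t + (a 1).str t, ?_⟩
    refine (ha (some (fun t => (a 0).str t + (a 1).str t))).1 ?_
    rw [hφR]
    refine ⟨⟨b1, b2, rfl, rfl, b3, rfl, b4.le⟩, ?_⟩
    intro t ht
    have ht' : t < d := ht
    show (a 0).str t + (a 1).str t = 0 + (if h : t < d then (a 0).str t + (a 1).str t else 0)
    rw [dif_pos ht', zero_add]
  -- the definable set
  have h3 := hdef 2 φR
  rw [Set.definable_iff_finitely_definable] at h3
  obtain ⟨A0, _, h4⟩ := h3
  rw [Set.definable_iff_exists_formula_sum] at h4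
  obtain ⟨θ, hθ⟩ := h4
  have : Fintype (A0 : Set Pt) := Fintype.ofFinite _
  obtain ⟨K, hK, hinv⟩ := qe θ
  let t : ℕ := A0.sup Pt.lev
  have ht : ∀ x ∈ A0, shift t x = x := fun x hx => shift_low (Finset.le_sup (f := Pt.lev) hx)
  obtain ⟨u, hu⟩ := step1 (t + 1)
  have h5 : ∀ b : Fin 2 → Pt, FormulaMem (inst φR b) p ↔
      θ.Realize (Sum.elim (fun a : (A0 : Set Pt) => (a : Pt)) b) := by
    intro b
    have : b ∈ {b : Fin 2 → Pt | FormulaMem (inst φR b) p} ↔
      b ∈ {v : Fin 2 → Pt | θ.Realize (Sum.elim (fun a : (A0 : Set Pt) => (a : Pt)) v)} := by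
      rw [hθ]
    exact this
  have h6 := (h5 _).1 hu
  have h7 := (hinv _ _ (sim_shift K t (Sum.elim (fun a : (A0 : Set Pt) => (a : Pt))
    ![pL (t + 1), pO (t + 1) u]))).1 h6
  have h8 : (fun i => shift t (Sum.elim (fun a : (A0 : Set Pt) => (a : Pt))
      ![pL (t + 1), pO (t + 1) u] i)) = Sum.elim (fun a : (A0 : Set Pt) => (a : Pt))
        (fun i => shift t ((![pL (t + 1), pO (t + 1) u] : Fin 2 → Pt) i)) := by
    funext i
    rcases i with i | i
    · exact ht _ i.2
    · rfl
  rw [Set.mem_ofPred_eq, h8, ← h5] at h7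
  -- contradiction
  obtain ⟨a, ha⟩ := type_real p (fun i : Bool =>
    if i = true then inst φR ![pL (t + 1), pO (t + 1) u] else
      inst φR (fun i => shift t ((![pL (t + 1), pO (t + 1) u] : Fin 2 → Pt) i)))
  have h9 := (ha true).2 hu
  have h10 := (ha false).2 h7
  rw [if_pos rfl, hφR] at h9
  rw [if_neg (by decide), hφR] at h10
  have h11 : (a 0).str t + (a 1).str t = (pL (t + 1)).str t + (pO (t + 1) u).str t :=
    h9.2 t (Nat.lt_succ_self t)
  have h12 : (a 0).str t + (a 1).str t = (shift t (pL (t + 1))).str t +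
      (shift t (pO (t + 1) u)).str t := h10.2 t (Nat.lt_succ_self t)
  have h13 : (shift t (pL (t + 1))).str t = 0 := by
    show (0 : ZMod 2) + (if false = true then (1 : ZMod 2) else 0) * _ = 0
    rw [if_neg (by decide), zero_mul, add_zero]
  have h14 : (shift t (pO (t + 1) u)).str t = (pO (t + 1) u).str t + 1 := by
    show (pO (t + 1) u).str t + (if true = true then (1 : ZMod 2) else 0) *
      (if t = t ∧ t < t + 1 then (1 : ZMod 2) else 0) = _
    rw [if_pos rfl, if_pos ⟨rfl, Nat.lt_succ_self t⟩, mul_one]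
  rw [h11, h13, h14] at h12
  have h15 : (pL (t + 1)).str t = 0 := rfl
  rw [h15] at h12
  generalize (pO (t + 1) u).str t = z at h12
  revert z
  decide

theorem isDirected : IsDirectedFamily LD (Set.univ : Set (Fin 1 → Pt)) XX where
  definable_index := Set.definable_univ
  definable_family := by
    refine Set.Definable.mono (A := ∅) ?_ (Set.empty_subset _)
    rw [Set.empty_definable_iff]
    refine ⟨relF XX ⟨1, le_rfl, inv_XX⟩, ?_⟩
    ext v
    exact (realize_relF XX ⟨1, le_rfl, inv_XX⟩ v).symm
  nonempty_index := ⟨fun _ => pL 0, Set.mem_univ _⟩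
  nonempty := by
    intro b _
    exact ⟨![pL ((b 0).lev + 1), pO ((b 0).lev + 1) 0], rfl, rfl, rfl, Nat.lt_succ_self _⟩
  directed := by
    intro b _ b' _
    refine ⟨fun _ => pL (max (b 0).lev (b' 0).lev), Set.mem_univ _, ?_⟩
    rintro a ⟨h1, h2, h3, h4⟩
    have h5 : max (b 0).lev (b' 0).lev < (a 0).lev := h4
    exact ⟨⟨h1, h2, h3, lt_of_le_of_lt (le_max_left _ _) h5⟩,
      ⟨h1, h2, h3, lt_of_le_of_lt (le_max_right _ _) h5⟩⟩

end Pool.Agent.Helper59.DF
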